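import Pool.Graph.R_pool_sql_team_seeded_63374d34.N940.MN.Kur

/-!
# Linear growth of the mean of an asymptotically additive function, growth of the variance
-/

set_option autoImplicit false

open Filter Topology Finset

namespace Pool.Agent.H47.ML

open Pool.Agent.N940.MN

/-! ### almost additive sequences -/

/-- the ratio of the geometric series -/
noncomputable def qq : ℝ := Real.sqrt 2 / 2

lemma sqrt_two_lt : Real.sqrt 2 < 3 / 2 := by
  rw [show (3 / 2 : ℝ) = Real.sqrt ((3 / 2) ^ 2) by rw [Real.sqrt_sq (by norm_num)]]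
  exact Real.sqrt_lt_sqrt (by norm_num) (by norm_num)

lemma qq_pos : 0 < qq := by unfold qq; positivity

lemma qq_lt : qq < 3 / 4 := by
  have := sqrt_two_lt
  unfold qq
  linarith

lemma sqrt_pow (k r : ℕ) : Real.sqrt (((2 ^ k * r : ℕ) : ℝ)) / 2 ^ k = Real.sqrt r * qq ^ k := by
  have h : Real.sqrt (((2 ^ k * r : ℕ) : ℝ)) = Real.sqrt 2 ^ k * Real.sqrt r := by
    push_cast
    rw [Real.sqrt_mul (by positivity)]
    congr 1
    induction k with
    | zero => simp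
    | succ k ih => rw [pow_succ, Real.sqrt_mul (by positivity), ih, pow_succ]
  rw [h]
  unfold qq
  rw [div_pow]
  ring

lemma lin_abs (e : ℕ → ℝ) (C : ℝ)
    (h1 : ∀ r s : ℕ, |e (r + s) - e r - e s| ≤ C * Real.sqrt r)
    (h2 : ∀ ε : ℝ, 0 < ε → ∃ R : ℕ, ∀ r : ℕ, R ≤ r → |e (2 * r) - 2 * e r| ≤ ε * Real.sqrt r) :
    ∃ μ : ℝ, ∀ ε : ℝ, 0 < ε → ∃ R : ℕ, ∀ r : ℕ, R ≤ r → |e r - μ * r| ≤ ε * Real.sqrt r := by
  have hq0 := qq_pos
  have hq1 := qq_lt
  -- one step of the dyadic sequence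
  have hstep : ∀ (D : ℝ) (r k : ℕ), |e (2 * (2 ^ k * r)) - 2 * e (2 ^ k * r)| ≤
      D * Real.sqrt ((2 ^ k * r : ℕ) : ℝ) →
      dist (e (2 ^ k * r) / 2 ^ k) (e (2 ^ (k + 1) * r) / 2 ^ (k + 1)) ≤
        (D * Real.sqrt r / 2) * qq ^ k := by
    intro D r k h
    have e1 : e (2 ^ k * r) / 2 ^ k - e (2 ^ (k + 1) * r) / 2 ^ (k + 1) =
        -((e (2 * (2 ^ k * r)) - 2 * e (2 ^ k * r)) / (2 * 2 ^ k)) := by
      rw [show 2 ^ (k + 1) * r = 2 * (2 ^ k * r) by ring, pow_succ]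
      field_simp
      ring
    rw [Real.dist_eq, e1, abs_neg, abs_div, abs_of_pos (show (0 : ℝ) < 2 * 2 ^ k by positivity)]
    calc |e (2 * (2 ^ k * r)) - 2 * e (2 ^ k * r)| / (2 * 2 ^ k)
        ≤ (D * Real.sqrt ((2 ^ k * r : ℕ) : ℝ)) / (2 * 2 ^ k) :=
          div_le_div_of_nonneg_right h (by positivity)
      _ = D / 2 * (Real.sqrt ((2 ^ k * r : ℕ) : ℝ) / 2 ^ k) := by ring
      _ = (D * Real.sqrt r / 2) * qq ^ k := by rw [sqrt_pow]; ring
  have hlim : ∀ r : ℕ, ∃ m : ℝ, Tendsto (fun k => e (2 ^ k * r) / 2 ^ k) atTop (𝓝 m) := by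
    intro r
    refine cauchySeq_tendsto_of_complete (cauchySeq_of_le_geometric qq (C * Real.sqrt r / 2)
      (by linarith) fun k => hstep C r k ?_)
    have := h1 (2 ^ k * r) (2 ^ k * r)
    rw [← two_mul] at this
    rwa [show e (2 * (2 ^ k * r)) - 2 * e (2 ^ k * r) =
      e (2 * (2 ^ k * r)) - e (2 ^ k * r) - e (2 ^ k * r) by ring]
  choose m hm using hlim
  have hadd : ∀ r s : ℕ, m (r + s) = m r + m s := by
    intro r s
    have h3 : Tendsto (fun k => e (2 ^ k * (r + s)) / 2 ^ k - e (2 ^ k * r) / 2 ^ k -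
        e (2 ^ k * s) / 2 ^ k) atTop (𝓝 (m (r + s) - m r - m s)) :=
      ((hm (r + s)).sub (hm r)).sub (hm s)
    have h4 : Tendsto (fun k => e (2 ^ k * (r + s)) / 2 ^ k - e (2 ^ k * r) / 2 ^ k -
        e (2 ^ k * s) / 2 ^ k) atTop (𝓝 0) := by
      have h5 : Tendsto (fun k : ℕ => C * Real.sqrt r * qq ^ k) atTop (𝓝 0) := by
        simpa using (tendsto_pow_atTop_nhds_zero_of_lt_one hq0.le (by linarith)).const_mul
          (C * Real.sqrt r)
      refine squeeze_zero_norm (fun k => ?_) h5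
      have h6 : e (2 ^ k * (r + s)) / 2 ^ k - e (2 ^ k * r) / 2 ^ k - e (2 ^ k * s) / 2 ^ k =
          (e (2 ^ k * r + 2 ^ k * s) - e (2 ^ k * r) - e (2 ^ k * s)) / 2 ^ k := by
        rw [mul_add]
        ring
      rw [h6, norm_div, Real.norm_eq_abs, Real.norm_eq_abs,
        abs_of_pos (show (0 : ℝ) < 2 ^ k by positivity)]
      calc _ ≤ (C * Real.sqrt ((2 ^ k * r : ℕ) : ℝ)) / 2 ^ k :=
            div_le_div_of_nonneg_right (h1 _ _) (by positivity)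
        _ = C * (Real.sqrt ((2 ^ k * r : ℕ) : ℝ) / 2 ^ k) := by ring
        _ = _ := by rw [sqrt_pow]; ring
    have := tendsto_nhds_unique h3 h4
    linarith
  have hnat : ∀ r : ℕ, m r = m 1 * r := by
    intro r
    induction r with
    | zero =>
      have := hadd 0 0
      simp only [Nat.add_zero] at this
      simp only [Nat.cast_zero, mul_zero]
      linarith
    | succ r ih =>
      rw [hadd, ih]
      push_cast
      ring
  refine ⟨m 1, fun ε hε => ?_⟩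
  obtain ⟨R, hR⟩ := h2 (ε / 2) (by positivity)
  refine ⟨R, fun r hr => ?_⟩
  have h7 := dist_le_of_le_geometric_of_tendsto₀ qq (ε / 2 * Real.sqrt r / 2) (by linarith)
    (fun k => hstep (ε / 2) r k (hR _ (hr.trans (Nat.le_mul_of_pos_left _ (by positivity)))))
    (hm r)
  simp only [pow_zero, one_mul, div_one] at h7
  rw [hnat, Real.dist_eq] at h7
  refine h7.trans ?_
  rw [div_le_iff₀ (by linarith)]
  have h8 : 0 ≤ Real.sqrt r := Real.sqrt_nonneg _
  have h9 : ε * Real.sqrt r * (1 / 4) ≤ ε * Real.sqrt r * (1 - qq) :=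
    mul_le_mul_of_nonneg_left (by linarith) (by positivity)
  linarith

/-! ### the mean -/

lemma abs_Ew2_le (r s : ℕ) (G : W → W → ℝ) :
    |Ew r fun u => Ew s fun v => G u v| ≤ Real.sqrt (Ew r fun u => Ew s fun v => G u v ^ 2) := by
  rw [← Kur.Ew_split, ← Kur.Ew_split]
  exact Kur.abs_Ew_le_n2 (r + s) fun w => G (w.take r) (w.drop r)

lemma mean_join {F Fo : W → ℝ} {C c : ℝ} {r₀ : ℕ} (_hA : Adt F Fo C c r₀) (r s : ℕ) :
    Ew (r + s) F - Ew r F - Ew s F = Ew r fun I => Ew s fun J => F (I ++ J) - F I - F J := by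
  rw [Ew_append]
  have h : ∀ I : W, (Ew s fun J => F (I ++ J) - F I - F J) =
      (Ew s fun J => F (I ++ J)) - F I - Ew s F := by
    intro I
    rw [Ew_sub, Ew_sub, Ew_const]
  simp only [h]
  rw [Ew_sub, Ew_sub, Ew_const]

lemma mean_join_le {F Fo : W → ℝ} {C c : ℝ} {r₀ : ℕ} (hM : S_MOM) (hA : Adt F Fo C c r₀)
    (r s : ℕ) : |Ew (r + s) F - Ew r F - Ew s F| ≤ 2 * C * Real.sqrt r := by
  have hC := Kur.C_nonneg hA
  rw [mean_join hA]
  refine (abs_Ew2_le _ _ _).trans ?_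
  have h1 : (Ew r fun I => Ew s fun J => (F (I ++ J) - F I - F J) ^ 2) ≤
      (2 * C * Real.sqrt r) ^ 2 := by
    calc (Ew r fun I => Ew s fun J => (F (I ++ J) - F I - F J) ^ 2)
        ≤ Ew r fun I => Ew s fun J => C ^ 2 * (mm I J : ℝ) ^ 2 := by
          refine Ew_mono fun I _ => Ew_mono fun J _ => ?_
          rw [← mul_pow]
          exact sq_le_sq' (by have := (abs_le.1 (hA.join I J)).1; linarith)
            (abs_le.1 (hA.join I J)).2
      _ = C ^ 2 * Ew r fun I => Ew s fun J => (mm I J : ℝ) ^ 2 := by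
          rw [← Ew_mul_left]
          simp only [Ew_mul_left]
      _ ≤ C ^ 2 * (4 * r) := mul_le_mul_of_nonneg_left (Kur.Ew_mm2 hM r s) (sq_nonneg C)
      _ = (2 * C * Real.sqrt r) ^ 2 := by
          rw [mul_pow, Real.sq_sqrt (Nat.cast_nonneg r)]
          ring
  exact Real.sqrt_le_iff.2 ⟨by positivity, h1⟩

/-- the mean is linear up to `o(√r)` -/
theorem mean_linear {F Fo : W → ℝ} {C c : ℝ} {r₀ : ℕ} (hM : S_MOM) (hK : S_KUR)
    (hA : Adt F Fo C c r₀) :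
    ∃ μ : ℝ, ∀ ε : ℝ, 0 < ε → ∃ R : ℕ, ∀ r : ℕ, R ≤ r → |Ew r F - μ * r| ≤ ε * Real.sqrt r := by
  refine lin_abs (fun r => Ew r F) (2 * C) (mean_join_le hM hA) fun ε hε => ?_
  obtain ⟨-, -, h, -⟩ := hK F Fo C c r₀ hA
  obtain ⟨R, hR⟩ := h (ε ^ 2) (by positivity)
  refine ⟨R, fun r hr => ?_⟩
  have h1 : Ew (2 * r) F - 2 * Ew r F = Ew (r + r) F - Ew r F - Ew r F := by
    rw [← two_mul]
    ring
  rw [h1, mean_join hA]
  refine (abs_Ew2_le _ _ _).trans (Real.sqrt_le_iff.2 ⟨by positivity, ?_⟩)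
  rw [mul_pow, Real.sq_sqrt (Nat.cast_nonneg r)]
  exact hR r hr

/-! ### the variance -/

/-- the ratio of the variances for doubled length -/
theorem var_ratio {F Fo : W → ℝ} {C c : ℝ} {r₀ : ℕ} (hK : S_KUR) (hA : Adt F Fo C c r₀) :
    Tendsto (fun r : ℕ => Vw (2 * r) F / (2 * Vw r F)) atTop (𝓝 1) := by
  obtain ⟨h, -, -, -⟩ := hK F Fo C c r₀ hA
  have h1 : Tendsto (fun r : ℕ => Real.sqrt (Vw (2 * r) F) / Real.sqrt (2 * Vw r F)) atTop
      (𝓝 1) := by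
    rw [Metric.tendsto_atTop]
    intro ε hε
    obtain ⟨R, hR⟩ := h (ε / 2) (by positivity)
    refine ⟨max R (r₀ + 1), fun r hr => ?_⟩
    have hr1 : R ≤ r := le_trans (le_max_left _ _) hr
    have hr2 : r₀ + 1 ≤ r := le_trans (le_max_right _ _) hr
    have hV : 0 < Vw r F := by
      have h2 := hA.var r (by omega)
      have h3 : (0 : ℝ) < r := Nat.cast_pos.2 (by omega)
      have h4 := hA.cpos
      exact lt_of_lt_of_le (by positivity) h2
    have hs : 0 < Real.sqrt (2 * Vw r F) := Real.sqrt_pos.2 (by positivity)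
    rw [Real.dist_eq, show Real.sqrt (Vw (2 * r) F) / Real.sqrt (2 * Vw r F) - 1 =
      (Real.sqrt (Vw (2 * r) F) - Real.sqrt (2 * Vw r F)) / Real.sqrt (2 * Vw r F) by
        field_simp, abs_div, abs_of_pos hs, div_lt_iff₀ hs]
    have h5 := hR r hr1
    have h6 : Real.sqrt (Vw r F) ≤ Real.sqrt (2 * Vw r F) := Real.sqrt_le_sqrt (by linarith)
    have h7 : 0 ≤ Real.sqrt (Vw r F) := Real.sqrt_nonneg _
    nlinarith
  have h2 := h1.pow 2
  rw [one_pow] at h2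
  refine h2.congr' ?_
  filter_upwards [] with r
  rw [div_pow, Real.sq_sqrt (Kur.Vw_nonneg _ _),
    Real.sq_sqrt (mul_nonneg (by norm_num) (Kur.Vw_nonneg _ _))]

/-- growth of sequences which nearly double -/
lemma growth (v : ℕ → ℝ) (θ : ℝ) (hθ : 0 ≤ θ) (R : ℕ) (hR : 1 ≤ R) (h0 : ∀ n, 0 ≤ v n)
    (h : ∀ r : ℕ, R ≤ r → v (2 * r) ≤ (2 : ℝ) ^ θ * v r ∧ v (2 * r + 1) ≤ (2 : ℝ) ^ θ * v r) :
    ∃ K : ℝ, 0 ≤ K ∧ ∀ n : ℕ, 0 < n → v n ≤ K * (n : ℝ) ^ θ := by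
  refine ⟨∑ n ∈ range (2 * R), v n, sum_nonneg fun n _ => h0 n, fun n => ?_⟩
  induction n using Nat.strong_induction_on with
  | _ n ih =>
    intro hn
    have hK : 0 ≤ ∑ n ∈ range (2 * R), v n := sum_nonneg fun n _ => h0 n
    rcases lt_or_ge n (2 * R) with h1 | h1
    · have h2 : v n ≤ ∑ n ∈ range (2 * R), v n :=
        single_le_sum (f := v) (fun i _ => h0 i) (mem_range.2 h1)
      have h3 : (1 : ℝ) ≤ (n : ℝ) ^ θ := Real.one_le_rpow (by exact_mod_cast hn) hθ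
      nlinarith
    · obtain ⟨r, hr⟩ : ∃ r, n = 2 * r ∨ n = 2 * r + 1 := ⟨n / 2, by omega⟩
      have hr1 : R ≤ r := by omega
      have hr2 := ih r (by omega) (by omega)
      have h2 : v n ≤ (2 : ℝ) ^ θ * v r := by
        rcases hr with rfl | rfl
        · exact (h r hr1).1
        · exact (h r hr1).2
      have h3 : (2 : ℝ) ^ θ * (r : ℝ) ^ θ ≤ (n : ℝ) ^ θ := by
        rw [← Real.mul_rpow (by norm_num) (Nat.cast_nonneg r)]
        refine Real.rpow_le_rpow (by positivity) ?_ hθ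
        have : 2 * r ≤ n := by omega
        exact_mod_cast this
      have h4 : (0 : ℝ) < (2 : ℝ) ^ θ := by positivity
      calc v n ≤ (2 : ℝ) ^ θ * v r := h2
        _ ≤ (2 : ℝ) ^ θ * ((∑ n ∈ range (2 * R), v n) * (r : ℝ) ^ θ) :=
            mul_le_mul_of_nonneg_left hr2 h4.le
        _ = (∑ n ∈ range (2 * R), v n) * ((2 : ℝ) ^ θ * (r : ℝ) ^ θ) := by ring
        _ ≤ _ := mul_le_mul_of_nonneg_left h3 hK

/-- the variance grows at most like `r ^ (1 + ε)` -/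
theorem var_upper {F Fo : W → ℝ} {C c : ℝ} {r₀ : ℕ} (hK : S_KUR) (hA : Adt F Fo C c r₀)
    (ε : ℝ) (hε : 0 < ε) : ∃ K : ℝ, 0 ≤ K ∧ ∀ n : ℕ, 0 < n → Vw n F ≤ K * (n : ℝ) ^ (1 + ε) := by
  obtain ⟨h1, h2, -, -⟩ := hK F Fo C c r₀ hA
  set θ : ℝ := (1 + ε) / 2 with hθ
  have hθ0 : 0 ≤ θ := by positivity
  have hlt : Real.sqrt 2 < (2 : ℝ) ^ θ := by
    rw [Real.sqrt_eq_rpow]
    exact Real.rpow_lt_rpow_of_exponent_lt (by norm_num) (by rw [hθ]; linarith)
  set δ : ℝ := ((2 : ℝ) ^ θ - Real.sqrt 2) / 2 with hδ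
  have hδ0 : 0 < δ := by rw [hδ]; linarith
  obtain ⟨R, hR⟩ := h1 δ hδ0
  have hC := Kur.C_nonneg hA
  have hc := hA.cpos
  -- large variances
  obtain ⟨R', hR'⟩ : ∃ R' : ℕ, ∀ r : ℕ, R' ≤ r → C ≤ δ * Real.sqrt (Vw r F) := by
    obtain ⟨N, hN⟩ := exists_nat_ge ((C / δ) ^ 2 / c)
    refine ⟨max N r₀, fun r hr => ?_⟩
    have h3 := hA.var r (le_trans (le_max_right _ _) hr)
    have h4 : (N : ℝ) ≤ r := by exact_mod_cast le_trans (le_max_left _ _) hr
    have h5 : (C / δ) ^ 2 ≤ Vw r F := by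
      rw [div_le_iff₀ hc] at hN
      nlinarith
    have h6 : C / δ ≤ Real.sqrt (Vw r F) := Real.le_sqrt_of_sq_le h5
    rw [div_le_iff₀ hδ0] at h6
    linarith
  obtain ⟨K, hK0, hKn⟩ := growth (fun n => Real.sqrt (Vw n F)) θ hθ0 (max (max R R') 1)
    (le_max_right _ _) (fun n => Real.sqrt_nonneg _) (fun r hr => by
      have hr1 : R ≤ r := le_trans (le_trans (le_max_left _ _) (le_max_left _ _)) hr
      have hr2 : R' ≤ r := le_trans (le_trans (le_max_right _ _) (le_max_left _ _)) hr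
      have h3 := (abs_le.1 (hR r hr1)).2
      have h4 := hR' r hr2
      have h5 := (abs_le.1 (h2 (2 * r))).2
      rw [Real.sqrt_mul (by norm_num)] at h3
      have h6 : (2 : ℝ) ^ θ = Real.sqrt 2 + 2 * δ := by rw [hδ]; ring
      have h7 : 0 ≤ δ * Real.sqrt (Vw r F) := mul_nonneg hδ0.le (Real.sqrt_nonneg _)
      rw [h6, add_mul, mul_assoc]
      constructor <;> linarith)
  refine ⟨K ^ 2, sq_nonneg K, fun n hn => ?_⟩
  have h3 := hKn n hn
  have h4 : Vw n F = Real.sqrt (Vw n F) ^ 2 := (Real.sq_sqrt (Kur.Vw_nonneg _ _)).symm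
  have hn' : (0 : ℝ) < n := Nat.cast_pos.2 hn
  have h5 : (n : ℝ) ^ (1 + ε) = ((n : ℝ) ^ θ) ^ 2 := by
    rw [← Real.rpow_natCast, ← Real.rpow_mul hn'.le]
    congr 1
    rw [hθ]
    push_cast
    ring
  rw [h4, h5, ← mul_pow]
  exact pow_le_pow_left₀ (Real.sqrt_nonneg _) h3 2

end Pool.Agent.H47.ML
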