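import Pool.Graph.R_pool_sql_team_seeded_63374d34.N940.MN.Main
import Pool.Agent.H47.ML.Lin

/-!
# Mean and variance for bridges, linear centring
-/

set_option autoImplicit false

open Filter Topology Finset

namespace Pool.Agent.H47.ML

open Pool.Agent.N940.MN Pool.Agent.N940.MN.Aclt

/-- mean and variance for bridges, compared with those for free words of half the length -/
theorem bridge {F Fo : W → ℝ} {C c : ℝ} {r₀ : ℕ} (h0 : S_ACLT0) (h4 : S_M4) (hD : S_DENS)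
    (hA : Adt F Fo C c r₀) :
    Tendsto (fun n : ℕ => (EB n Fo - 2 * Ew n F) / Real.sqrt (2 * Vw n F)) atTop (𝓝 0) ∧
      Tendsto (fun n : ℕ => VB n Fo / (2 * Vw n F)) atTop (𝓝 1) := by
  obtain ⟨κ, R, hκ, hM⟩ := h4 F Fo C c r₀ hA
  have hbb : ∀ n : ℕ, 0 < n → 0 < bb n := by
    obtain ⟨⟨c1, hc1, hb1⟩, -⟩ := hD
    intro n hn
    have hn' : (0 : ℝ) < n := Nat.cast_pos.2 hn
    exact lt_of_lt_of_le (by positivity) (hb1 n hn)
  have hc := hA.cpos
  set σ : ℕ → ℝ := fun n => Real.sqrt (2 * Vw n F) with hσ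
  set Z : ℕ → W → ℝ := fun n w => (Fo w - 2 * Ew n F) / σ n with hZ
  set N0 := r₀ + 1 + R with hN0
  have hV : ∀ n, N0 ≤ n → 0 < Vw n F := by
    intro n hn
    have hn' : (0 : ℝ) < n := Nat.cast_pos.2 (by omega)
    exact lt_of_lt_of_le (by positivity) (hA.var n (by omega))
  have hσ0 : ∀ n, N0 ≤ n → 0 < σ n := fun n hn => by
    have := hV n hn
    exact Real.sqrt_pos.2 (by positivity)
  have hσ2 : ∀ n, σ n ^ 2 = 2 * Vw n F := fun n =>
    Real.sq_sqrt (by have := Vw_nonneg n F; positivity)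
  have hZ4 : ∀ n, N0 ≤ n → EB n (fun w => Z n w ^ 4) ≤ κ := by
    intro n hn
    have h1 : EB n (fun w => Z n w ^ 4) =
        ((2 * Vw n F) ^ 2)⁻¹ * EB n (fun w => (Fo w - 2 * Ew n F) ^ 4) := by
      rw [← EB_mul_left]
      refine EB_congr fun w _ _ => ?_
      rw [← hσ2 n, hZ]
      simp only
      rw [div_pow, ← pow_mul, div_eq_inv_mul]
    rw [h1]
    have h2 := hM n (by omega)
    have h3 := hV n hn
    calc ((2 * Vw n F) ^ 2)⁻¹ * EB n (fun w => (Fo w - 2 * Ew n F) ^ 4)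
        ≤ ((2 * Vw n F) ^ 2)⁻¹ * (κ * (2 * Vw n F) ^ 2) :=
          mul_le_mul_of_nonneg_left h2 (by positivity)
      _ = κ := by field_simp
  have hcf : ∀ t : ℝ, Tendsto (fun n : ℕ => EB n fun w =>
      Complex.exp (Complex.I * ((t * Z n w : ℝ) : ℂ))) atTop
        (𝓝 (Complex.exp ((-(t ^ 2) / 2 : ℝ) : ℂ))) := fun t => h0 F Fo C c r₀ hA t
  obtain ⟨hm1, hm2⟩ := moments (fun n hn => hbb n (by omega)) Z κ hZ4 hcf
  set m1 : ℕ → ℝ := fun n => EB n (Z n) with hm1d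
  set m2 : ℕ → ℝ := fun n => EB n (fun w => Z n w ^ 2) with hm2d
  set q : ℕ → ℝ := fun n => m2 n - m1 n ^ 2 with hqd
  have hq : Tendsto q atTop (𝓝 1) := by
    have := hm2.sub (hm1.pow 2)
    simpa using this
  have hEB : ∀ n, N0 ≤ n → EB n Fo = 2 * Ew n F + σ n * m1 n := by
    intro n hn
    have h1 : EB n Fo = EB n (fun _ => 2 * Ew n F) + σ n * EB n (Z n) := by
      rw [← EB_mul_left, ← EB_add]
      refine EB_congr fun w _ _ => ?_
      have := (hσ0 n hn).ne'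
      rw [hZ]
      simp only
      field_simp
      ring
    rw [h1, EB_const (hbb n (by omega)).ne']
  have hdev : ∀ n, N0 ≤ n → ∀ w, Fo w - EB n Fo = σ n * (Z n w - m1 n) := by
    intro n hn w
    rw [hEB n hn, hZ]
    simp only
    have := (hσ0 n hn).ne'
    field_simp
    ring
  have hVB : ∀ n, N0 ≤ n → VB n Fo = σ n ^ 2 * q n := by
    intro n hn
    unfold VB
    have h1 : EB n (fun w => (Fo w - EB n Fo) ^ 2) = σ n ^ 2 * EB n (fun w => Z n w ^ 2) -
        (2 * σ n ^ 2 * m1 n) * EB n (Z n) + EB n (fun _ => σ n ^ 2 * m1 n ^ 2) := by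
      rw [← EB_mul_left, ← EB_mul_left, ← EB_sub, ← EB_add]
      refine EB_congr fun w _ _ => ?_
      rw [hdev n hn w]
      ring
    rw [h1, EB_const (hbb n (by omega)).ne', hqd, hm2d]
    simp only
    rw [hm1d]
    ring
  constructor
  · refine hm1.congr' ?_
    filter_upwards [eventually_ge_atTop N0] with n hn
    have := (hσ0 n hn).ne'
    show m1 n = (EB n Fo - 2 * Ew n F) / σ n
    rw [hEB n hn]
    field_simp
    ring
  · refine hq.congr' ?_
    filter_upwards [eventually_ge_atTop N0] with n hn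
    have h3 := hV n hn
    rw [hVB n hn, hσ2]
    field_simp

/-- the positivity of the variance -/
lemma Vw_pos {F Fo : W → ℝ} {C c : ℝ} {r₀ : ℕ} (hA : Adt F Fo C c r₀) {n : ℕ} (hn : r₀ ≤ n)
    (hn0 : 0 < n) : 0 < Vw n F := by
  have h1 := hA.cpos
  have h2 : (0 : ℝ) < n := Nat.cast_pos.2 hn0
  exact lt_of_lt_of_le (by positivity) (hA.var n hn)

/-- growth of the variance for bridges -/
theorem bridge_upper {F Fo : W → ℝ} {C c : ℝ} {r₀ : ℕ} (h0 : S_ACLT0) (h4 : S_M4) (hD : S_DENS)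
    (hK : S_KUR) (hA : Adt F Fo C c r₀) (ε : ℝ) (hε : 0 < ε) :
    ∃ K : ℝ, ∀ n : ℕ, 0 < n → VB n Fo ≤ K * (n : ℝ) ^ (1 + ε) := by
  obtain ⟨K, hK0, hKn⟩ := var_upper hK hA ε hε
  obtain ⟨-, h1⟩ := bridge h0 h4 hD hA
  have h2 := h1.eventually_lt_const (show (1 : ℝ) < 2 by norm_num)
  obtain ⟨N, hN⟩ := eventually_atTop.1 h2
  refine ⟨4 * K + ∑ n ∈ range (N + r₀ + 1), |VB n Fo|, fun n hn => ?_⟩
  have hpos : (1 : ℝ) ≤ (n : ℝ) ^ (1 + ε) := Real.one_le_rpow (by exact_mod_cast hn) (by linarith)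
  have hs : 0 ≤ ∑ n ∈ range (N + r₀ + 1), |VB n Fo| := sum_nonneg fun _ _ => abs_nonneg _
  rcases lt_or_ge n (N + r₀ + 1) with h3 | h3
  · have h5 : |VB n Fo| ≤ ∑ n ∈ range (N + r₀ + 1), |VB n Fo| :=
      single_le_sum (f := fun n => |VB n Fo|) (fun i _ => abs_nonneg _) (mem_range.2 h3)
    have h6 := le_abs_self (VB n Fo)
    nlinarith
  · have h5 := hN n (by omega)
    have h6 := Vw_pos hA (n := n) (by omega) hn
    rw [div_lt_iff₀ (by positivity)] at h5
    have h7 := hKn n hn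
    nlinarith

/-- the variance doubles with the length -/
theorem bridge_ratio {F Fo : W → ℝ} {C c : ℝ} {r₀ : ℕ} (h0 : S_ACLT0) (h4 : S_M4) (hD : S_DENS)
    (hK : S_KUR) (hA : Adt F Fo C c r₀) :
    Tendsto (fun n : ℕ => VB (2 * n) Fo / VB n Fo) atTop (𝓝 2) := by
  obtain ⟨-, h1⟩ := bridge h0 h4 hD hA
  have h2 : Tendsto (fun n : ℕ => 2 * n) atTop atTop :=
    tendsto_id.const_mul_atTop' (by norm_num)
  have h3 := ((h1.comp h2).mul (var_ratio hK hA)).mul (h1.inv₀ one_ne_zero)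
  have h5 := h3.const_mul 2
  simp only [mul_one, inv_one] at h5
  refine h5.congr' ?_
  filter_upwards [eventually_ge_atTop (r₀ + 1)] with n hn
  have h6 := Vw_pos hA (n := n) (by omega) (by omega)
  have h7 := Vw_pos hA (n := 2 * n) (by omega) (by omega)
  simp only [Function.comp]
  field_simp

/-- **the mean for bridges is linear up to a small part of the standard deviation** -/
theorem bridge_mean {F Fo : W → ℝ} {C c : ℝ} {r₀ : ℕ} (h0 : S_ACLT0) (h4 : S_M4) (hD : S_DENS)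
    (hA : Adt F Fo C c r₀) {μ : ℝ}
    (hμ : ∀ ε : ℝ, 0 < ε → ∃ R : ℕ, ∀ r : ℕ, R ≤ r → |Ew r F - μ * r| ≤ ε * Real.sqrt r) :
    Tendsto (fun n : ℕ => (EB n Fo - 2 * μ * n) / Real.sqrt (VB n Fo)) atTop (𝓝 0) := by
  obtain ⟨h1, h2⟩ := bridge h0 h4 hD hA
  have hc := hA.cpos
  have h3 : Tendsto (fun n : ℕ => (2 * Ew n F - 2 * μ * n) / Real.sqrt (2 * Vw n F)) atTop
      (𝓝 0) := by
    rw [Metric.tendsto_atTop]
    intro ε hε
    obtain ⟨R, hR⟩ := hμ (ε * Real.sqrt c / 4) (by positivity)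
    refine ⟨max R (r₀ + 1), fun n hn => ?_⟩
    have hr1 : R ≤ n := le_trans (le_max_left _ _) hn
    have hr2 : r₀ + 1 ≤ n := le_trans (le_max_right _ _) hn
    have h5 := Vw_pos hA (n := n) (by omega) (by omega)
    have h6 := hA.var n (by omega)
    have h7 := hR n hr1
    have hn0 : (0 : ℝ) < n := Nat.cast_pos.2 (by omega)
    have hs : Real.sqrt c * Real.sqrt n ≤ Real.sqrt (2 * Vw n F) := by
      rw [← Real.sqrt_mul hc.le]
      exact Real.sqrt_le_sqrt (by linarith)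
    have hs0 : 0 < Real.sqrt c * Real.sqrt n := by positivity
    rw [Real.dist_eq, sub_zero, abs_div, abs_of_pos (lt_of_lt_of_le hs0 hs),
      div_lt_iff₀ (lt_of_lt_of_le hs0 hs), show 2 * Ew n F - 2 * μ * n = 2 * (Ew n F - μ * n) by
        ring, abs_mul, abs_of_pos (show (0 : ℝ) < 2 by norm_num)]
    have h8 : ε * (Real.sqrt c * Real.sqrt n) ≤ ε * Real.sqrt (2 * Vw n F) :=
      mul_le_mul_of_nonneg_left hs hε.le
    have h9 : 0 < ε * (Real.sqrt c * Real.sqrt n) := by positivity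
    have h10 : ε * Real.sqrt c / 4 * Real.sqrt n = ε * (Real.sqrt c * Real.sqrt n) / 4 := by ring
    rw [h10] at h7
    linarith
  have h5 : Tendsto (fun n : ℕ => Real.sqrt (2 * Vw n F) / Real.sqrt (VB n Fo)) atTop (𝓝 1) := by
    have h6' := h2.inv₀ one_ne_zero
    rw [inv_one] at h6'
    have h6 := (Real.continuous_sqrt.tendsto 1).comp h6'
    rw [Real.sqrt_one] at h6
    refine h6.congr' ?_
    filter_upwards [] with n
    simp only [Function.comp]
    rw [inv_div, Real.sqrt_div (mul_nonneg (by norm_num) (Vw_nonneg _ _))]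
  have h6 := (h1.add h3).mul h5
  simp only [add_zero, zero_mul] at h6
  refine h6.congr' ?_
  filter_upwards [eventually_ge_atTop (r₀ + 1)] with n hn
  have h7 := Vw_pos hA (n := n) (by omega) (by omega)
  have h8 : Real.sqrt (2 * Vw n F) ≠ 0 := (Real.sqrt_pos.2 (by positivity)).ne'
  rw [← add_div, div_mul_div_cancel₀ h8]
  congr 1
  ring

end Pool.Agent.H47.ML
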