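import Pool.Agent.H47.ML.Cen

/-!
# The number of components of a random meandric system: linear centring
-/

set_option autoImplicit false

open Filter Topology Finset MeasureTheory ProbabilityTheory

namespace Pool.Agent.H47.ML

open Pool.Agent.N940.MN Pool.Agent.N940.MN.Aclt Pool.Agent.N940.MN.Final

/-! ### the linear coefficient is positive -/

lemma mean_U (r : ℕ) : Ew r (fun w => (Fi.ends w : ℝ)) ≤ 4 * Real.sqrt r := by
  obtain ⟨h1, h2, h3, h4, -⟩ := Main.mom r
  have key : ∀ G : W → ℝ, Ew r (fun w => G w ^ 2) ≤ r → Ew r G ≤ Real.sqrt r := fun G hG =>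
    (le_abs_self _).trans ((Kur.abs_Ew_le_n2 r G).trans (Real.sqrt_le_sqrt hG))
  have e : (fun w : W => (Fi.ends w : ℝ)) = fun w : W => ((U (up w) : ℝ) + (Dn (up w) : ℝ)) +
      ((U (lo w) : ℝ) + (Dn (lo w) : ℝ)) := by
    funext w
    unfold Fi.ends
    push_cast
    ring
  rw [e, Ew_add, Ew_add, Ew_add]
  have a1 := key (fun w => (U (up w) : ℝ)) h1
  have a2 := key (fun w => (Dn (up w) : ℝ)) h2
  have a3 := key (fun w => (U (lo w) : ℝ)) h3
  have a4 := key (fun w => (Dn (lo w) : ℝ)) h4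
  linarith

lemma mean_f (m : ℕ) : (m : ℝ) / 256 ≤ Ew (4 * m) fun w => (f w : ℝ) := by
  induction m with
  | zero =>
    simp only [Nat.cast_zero, zero_div]
    exact Ew_nonneg fun w _ => Nat.cast_nonneg _
  | succ m ih =>
    rw [show 4 * (m + 1) = 4 * m + 4 by ring, Ew_append]
    have h4 : (1 / 256 : ℝ) ≤ Ew 4 fun w => (f w : ℝ) := by
      have h1 := Var.two_le (fun w => (f w : ℝ)) fun w => Nat.cast_nonneg _
      have h2 := Main.patch [] []
      simp only [List.nil_append, List.append_nil] at h2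
      have h3 : (1 : ℝ) ≤ (f A1 : ℝ) + (f A2 : ℝ) := by
        have : 1 ≤ f A1 + f A2 := by omega
        exact_mod_cast this
      linarith
    have h5 : Ew (4 * m) (fun u => (f u : ℝ) + 1 / 256) ≤
        Ew (4 * m) fun u => Ew 4 fun v => (f (u ++ v) : ℝ) := by
      refine Ew_mono fun u _ => ?_
      have h6 : Ew 4 (fun v => (f u : ℝ) + (f v : ℝ)) ≤ Ew 4 fun v => (f (u ++ v) : ℝ) := by
        refine Ew_mono fun v _ => ?_
        exact_mod_cast (Fi.bound_join Main.w u v).1
      rw [Ew_add, Ew_const] at h6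
      linarith
    rw [Ew_add, Ew_const] at h5
    push_cast
    linarith

lemma coeff_pos {a μ : ℝ} (hμ : ∀ ε : ℝ, 0 < ε → ∃ R : ℕ, ∀ r : ℕ, R ≤ r →
    |Ew r (Fi.FF a) - μ * r| ≤ ε * Real.sqrt r) : 0 < μ := by
  obtain ⟨R, hR⟩ := hμ 1 one_pos
  obtain ⟨M, hM⟩ := exists_nat_gt (512 * (2 * |a| + 1) + R)
  have hM0 : (0 : ℝ) < M := lt_of_le_of_lt (by positivity) hM
  have hMR : R ≤ M := by
    have : (R : ℝ) ≤ M := by
      have : 0 ≤ 512 * (2 * |a| + 1) := by positivity
      linarith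
    exact_mod_cast this
  have hMM : R ≤ 4 * (M * M) := by
    have : M ≤ M * M := Nat.le_mul_self M
    omega
  have h1 := (abs_le.1 (hR _ hMM)).2
  have h2 := mean_f (M * M)
  have h3 := mean_U (4 * (M * M))
  have hs : Real.sqrt ((4 * (M * M) : ℕ) : ℝ) = 2 * M := by
    push_cast
    rw [show (4 : ℝ) * (M * M) = (2 * M) ^ 2 by ring]
    exact Real.sqrt_sq (by positivity)
  rw [hs] at h1 h3
  have e : Ew (4 * (M * M)) (Fi.FF a) = Ew (4 * (M * M)) (fun w => (f w : ℝ)) +
      a / 2 * Ew (4 * (M * M)) (fun w => (Fi.ends w : ℝ)) := by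
    rw [← Ew_mul_left, ← Ew_add]
    rfl
  have h4 : 0 ≤ Ew (4 * (M * M)) (fun w => (Fi.ends w : ℝ)) :=
    Ew_nonneg fun w _ => Nat.cast_nonneg _
  rw [e] at h1
  have h5 : -(|a| / 2 * (4 * (2 * M))) ≤ a / 2 * Ew (4 * (M * M)) (fun w => (Fi.ends w : ℝ)) := by
    have h6 : -(|a| / 2) * Ew (4 * (M * M)) (fun w => (Fi.ends w : ℝ)) ≤
        a / 2 * Ew (4 * (M * M)) (fun w => (Fi.ends w : ℝ)) :=
      mul_le_mul_of_nonneg_right (by have := neg_abs_le a; linarith) h4
    have h7 : |a| / 2 * Ew (4 * (M * M)) (fun w => (Fi.ends w : ℝ)) ≤ |a| / 2 * (4 * (2 * M)) :=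
      mul_le_mul_of_nonneg_left h3 (by positivity)
    linarith
  push_cast at h1 h2
  have h6 : 0 < μ * (4 * ((M : ℝ) * M)) := by
    have h7 : 512 * (2 * |a| + 1) * M < (M : ℝ) * M := by
      refine mul_lt_mul_of_pos_right ?_ hM0
      have : (0 : ℝ) ≤ R := Nat.cast_nonneg R
      linarith
    nlinarith
  have h8 : 0 < 4 * ((M : ℝ) * M) := by positivity
  exact (pos_iff_pos_of_mul_pos h6).2 h8

/-! ### the distribution function -/

open Classical in
/-- the distribution function of the number of components, with linear centring -/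
noncomputable def distrLin (κ : ℝ) (n : ℕ) (x : ℝ) : ℝ :=
  (((systems n).filter fun p => ((components n p : ℝ) - κ * n) / √(Final.variance n) ≤ x).card : ℝ) /
    ((systems n).card : ℝ)

theorem hC : S_COUNT := Count.main Main.u Main.a1
theorem hO : S_ORB := Orb.main Main.a1 Main.u

theorem systems_nonempty (n : ℕ) : (systems n).Nonempty := by
  rw [← card_pos]
  have h3 := card_systems n
  have h4 : 0 < (AS n).card := card_pos.2 (Law.AS_nonempty hC n)
  have h5 : (0 : ℝ) < (systems n).card := by rw [h3]; positivity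
  exact_mod_cast h5

end Pool.Agent.H47.ML
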