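import Pool.Graph.R_pool_sql_team_seeded_63374d34.N940.MN.Main
import Pool.Agent.H47.ML.Lin

/-!
# All moments of an asymptotically additive function
-/

set_option autoImplicit false

open Filter Topology Finset

namespace Pool.Agent.H47.ML

open Pool.Agent.N940.MN

/-! ### the number of unmatched letters is sub-Gaussian -/

lemma cosh_step (l : ℝ) (r : ℕ) : Ew (r + 1) (fun w => Real.cosh (l * (U (up w) : ℝ))) ≤
    Real.cosh l * Ew r fun w => Real.cosh (l * (U (up w) : ℝ)) := by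
  rw [Ew_snoc, ← Ew_mul_left]
  refine Ew_mono fun w _ => ?_
  simp only [up_append, Mom.up_one, Fintype.sum_prod_type, Fintype.sum_bool, Mom.U_true,
    Mom.U_false, smul_eq_mul]
  rcases Nat.eq_zero_or_pos (U (up w)) with h | h
  · rw [h]
    have := Real.one_le_cosh l
    norm_num
    linarith
  · rw [Nat.cast_sub h]
    push_cast
    have h1 : Real.cosh (l * ((U (up w) : ℝ) + 1)) + Real.cosh (l * ((U (up w) : ℝ) - 1)) =
        2 * (Real.cosh l * Real.cosh (l * (U (up w) : ℝ))) := by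
      rw [mul_add, mul_sub, mul_one, Real.cosh_add, Real.cosh_sub]
      ring
    linarith

lemma cosh_le (l : ℝ) (r : ℕ) : Ew r (fun w => Real.cosh (l * (U (up w) : ℝ))) ≤
    Real.cosh l ^ r := by
  induction r with
  | zero =>
    rw [Ew_zero]
    simp [up, U]
  | succ r ih =>
    refine (cosh_step l r).trans ?_
    rw [pow_succ, mul_comm (Real.cosh l ^ r)]
    exact mul_le_mul_of_nonneg_left ih (Real.cosh_pos l).le

lemma pow_le_cosh (k : ℕ) {x : ℝ} (hx : 0 ≤ x) : x ^ (2 * k) ≤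
    2 * ((2 * k).factorial : ℝ) * Real.cosh x := by
  have h1 := Real.pow_div_factorial_le_exp x hx (2 * k)
  have h2 : (0 : ℝ) < ((2 * k).factorial : ℝ) := by exact_mod_cast Nat.factorial_pos _
  rw [div_le_iff₀ h2] at h1
  have h3 : Real.exp x ≤ 2 * Real.cosh x := by
    rw [Real.cosh_eq]
    have := Real.exp_pos (-x)
    linarith
  calc x ^ (2 * k) ≤ Real.exp x * ((2 * k).factorial : ℝ) := h1
    _ ≤ (2 * Real.cosh x) * ((2 * k).factorial : ℝ) := mul_le_mul_of_nonneg_right h3 h2.le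
    _ = _ := by ring

/-- even moments of the number of unmatched openings -/
lemma mU (k r : ℕ) : Ew r (fun w => (U (up w) : ℝ) ^ (2 * k)) ≤
    4 * ((2 * k).factorial : ℝ) * (r : ℝ) ^ k := by
  have hf : (1 : ℝ) ≤ ((2 * k).factorial : ℝ) := by exact_mod_cast Nat.factorial_pos _
  rcases Nat.eq_zero_or_pos r with rfl | hr
  · rw [Ew_zero]
    rcases Nat.eq_zero_or_pos k with rfl | hk
    · simp
    · simp [up, U, hk.ne']
  · have hr' : (0 : ℝ) < r := Nat.cast_pos.2 hr
    have hs : 0 < Real.sqrt r := Real.sqrt_pos.2 hr'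
    set l : ℝ := (Real.sqrt r)⁻¹ with hl
    have hl0 : 0 < l := inv_pos.2 hs
    have hsq : Real.sqrt r ^ (2 * k) = (r : ℝ) ^ k := by
      rw [pow_mul, Real.sq_sqrt hr'.le]
    have h1 : Ew r (fun w => (U (up w) : ℝ) ^ (2 * k)) ≤
        Ew r fun w => (2 * ((2 * k).factorial : ℝ) * (r : ℝ) ^ k) *
          Real.cosh (l * (U (up w) : ℝ)) := by
      refine Ew_mono fun w _ => ?_
      have h2 := pow_le_cosh k (x := l * (U (up w) : ℝ)) (by positivity)
      have h3 : (U (up w) : ℝ) ^ (2 * k) = (r : ℝ) ^ k * (l * (U (up w) : ℝ)) ^ (2 * k) := by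
        rw [← hsq, ← mul_pow, hl]
        congr 1
        field_simp
      rw [h3]
      calc _ ≤ (r : ℝ) ^ k * (2 * ((2 * k).factorial : ℝ) * Real.cosh (l * (U (up w) : ℝ))) :=
            mul_le_mul_of_nonneg_left h2 (by positivity)
        _ = _ := by ring
    rw [Ew_mul_left] at h1
    have h4 : Real.cosh l ^ r ≤ 2 := by
      have h5 : Real.cosh l ≤ Real.exp (l ^ 2 / 2) := Real.cosh_le_exp_half_sq l
      have h6 : l ^ 2 = (r : ℝ)⁻¹ := by
        rw [hl, inv_pow, Real.sq_sqrt hr'.le]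
      calc Real.cosh l ^ r ≤ Real.exp (l ^ 2 / 2) ^ r :=
            pow_le_pow_left₀ (Real.cosh_pos l).le h5 r
        _ = Real.exp (1 / 2) := by
            rw [← Real.exp_nat_mul, h6]
            congr 1
            field_simp
        _ ≤ 2 := by
            have h7 : Real.exp (1 / 2) ^ 2 = Real.exp 1 := by
              rw [← Real.exp_nat_mul]
              norm_num
            have h8 := Real.exp_one_lt_d9
            have h9 := Real.exp_pos (1 / 2)
            nlinarith
    calc _ ≤ _ := h1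
      _ ≤ 2 * ((2 * k).factorial : ℝ) * (r : ℝ) ^ k * 2 :=
          mul_le_mul_of_nonneg_left ((cosh_le l r).trans h4) (by positivity)
      _ = _ := by ring

lemma mUlo (k r : ℕ) : Ew r (fun w => (U (lo w) : ℝ) ^ (2 * k)) ≤
    4 * ((2 * k).factorial : ℝ) * (r : ℝ) ^ k := by
  rw [← Ew_sw]
  simp only [lo_sw]
  exact mU k r

/-- powers of sums -/
lemma add_pow_two (n : ℕ) (x y : ℝ) : |x + y| ^ n ≤ 2 ^ n * (|x| ^ n + |y| ^ n) := by
  have h1 : |x + y| ≤ 2 * max |x| |y| := by
    have := abs_add_le x y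
    have h2 := le_max_left |x| |y|
    have h3 := le_max_right |x| |y|
    linarith
  calc |x + y| ^ n ≤ (2 * max |x| |y|) ^ n := pow_le_pow_left₀ (abs_nonneg _) h1 n
    _ = 2 ^ n * max |x| |y| ^ n := mul_pow _ _ _
    _ ≤ 2 ^ n * (|x| ^ n + |y| ^ n) := by
        refine mul_le_mul_of_nonneg_left ?_ (by positivity)
        rcases max_choice |x| |y| with h | h
        · rw [h]
          have : 0 ≤ |y| ^ n := by positivity
          linarith
        · rw [h]
          have : 0 ≤ |x| ^ n := by positivity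
          linarith

lemma even_abs (k : ℕ) (x : ℝ) : |x| ^ (2 * k) = x ^ (2 * k) := by
  rw [pow_mul, pow_mul, sq_abs]

lemma add_pow_even (k : ℕ) (x y : ℝ) : (x + y) ^ (2 * k) ≤
    4 ^ k * (x ^ (2 * k) + y ^ (2 * k)) := by
  have h := add_pow_two (2 * k) x y
  rw [even_abs, even_abs, even_abs, pow_mul 2 2 k] at h
  norm_num at h
  exact h

/-- powers of a sum with a small summand -/
lemma add_pow_small (k : ℕ) (η : ℝ) (hη : 0 < η) (x y : ℝ) : (x + y) ^ (2 * k) ≤
    (1 + η) ^ (2 * k) * x ^ (2 * k) + (1 + 1 / η) ^ (2 * k) * y ^ (2 * k) := by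
  rw [← even_abs, ← even_abs k x, ← even_abs k y]
  rcases le_total |y| (η * |x|) with h | h
  · have h1 : |x + y| ≤ (1 + η) * |x| := by
      have := abs_add_le x y
      linarith
    have h2 := pow_le_pow_left₀ (abs_nonneg _) h1 (2 * k)
    rw [mul_pow] at h2
    have h3 : 0 ≤ (1 + 1 / η) ^ (2 * k) * |y| ^ (2 * k) := by positivity
    linarith
  · have h0 : |x| ≤ 1 / η * |y| := by
      rw [one_div, ← div_eq_inv_mul, le_div_iff₀ hη]
      linarith
    have h1 : |x + y| ≤ (1 + 1 / η) * |y| := by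
      have := abs_add_le x y
      linarith
    have h2 := pow_le_pow_left₀ (abs_nonneg _) h1 (2 * k)
    rw [mul_pow] at h2
    have h3 : 0 ≤ (1 + η) ^ (2 * k) * |x| ^ (2 * k) := by positivity
    linarith

/-- the binomial theorem with the middle terms estimated -/
lemma binom (k : ℕ) (x y : ℝ) : (x + y) ^ (2 * k + 4) ≤ x ^ (2 * k + 4) + y ^ (2 * k + 4) +
    (2 * k + 4) * (x * y ^ (2 * k + 3) + x ^ (2 * k + 3) * y) +
    2 ^ (2 * k + 4) * (x ^ 2 * y ^ (2 * k + 2) + x ^ (2 * k + 2) * y ^ 2) := by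
  rw [add_pow]
  rw [show 2 * k + 4 + 1 = (2 * k + 1) + 1 + 1 + 1 + 1 by ring]
  rw [sum_range_succ, sum_range_succ, sum_range_succ', sum_range_succ']
  have hmid : ∑ i ∈ range (2 * k + 1), x ^ (i + 1 + 1) * y ^ (2 * k + 4 - (i + 1 + 1)) *
      ((2 * k + 4).choose (i + 1 + 1) : ℝ) ≤
      2 ^ (2 * k + 4) * (x ^ 2 * y ^ (2 * k + 2) + x ^ (2 * k + 2) * y ^ 2) := by
    have hQ : 0 ≤ x ^ 2 * y ^ (2 * k + 2) + x ^ (2 * k + 2) * y ^ 2 := by
      rw [show 2 * k + 2 = 2 * (k + 1) by ring, pow_mul, pow_mul]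
      positivity
    have hone : ∀ i ∈ range (2 * k + 1), x ^ (i + 1 + 1) * y ^ (2 * k + 4 - (i + 1 + 1)) *
        ((2 * k + 4).choose (i + 1 + 1) : ℝ) ≤
        (x ^ 2 * y ^ (2 * k + 2) + x ^ (2 * k + 2) * y ^ 2) *
          ((2 * k + 4).choose (i + 1 + 1) : ℝ) := by
      intro i hi
      have hi' : i ≤ 2 * k := by
        have := mem_range.1 hi
        omega
      refine mul_le_mul_of_nonneg_right ?_ (Nat.cast_nonneg _)
      have e1 : x ^ (i + 1 + 1) * y ^ (2 * k + 4 - (i + 1 + 1)) =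
          (x ^ 2 * y ^ 2) * (x ^ i * y ^ (2 * k - i)) := by
        rw [show 2 * k + 4 - (i + 1 + 1) = 2 + (2 * k - i) by omega,
          show i + 1 + 1 = 2 + i by ring, pow_add, pow_add]
        ring
      have e2 : x ^ i * y ^ (2 * k - i) ≤ x ^ (2 * k) + y ^ (2 * k) := by
        refine (le_abs_self _).trans ?_
        rw [abs_mul, abs_pow, abs_pow, ← even_abs k x, ← even_abs k y]
        rcases le_total |x| |y| with h | h
        · have h1 : |x| ^ i ≤ |y| ^ i := pow_le_pow_left₀ (abs_nonneg _) h i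
          have h2 : |x| ^ i * |y| ^ (2 * k - i) ≤ |y| ^ i * |y| ^ (2 * k - i) :=
            mul_le_mul_of_nonneg_right h1 (by positivity)
          rw [← pow_add, show i + (2 * k - i) = 2 * k by omega] at h2
          have h3 : 0 ≤ |x| ^ (2 * k) := by positivity
          linarith
        · have h1 : |y| ^ (2 * k - i) ≤ |x| ^ (2 * k - i) := pow_le_pow_left₀ (abs_nonneg _) h _
          have h2 : |x| ^ i * |y| ^ (2 * k - i) ≤ |x| ^ i * |x| ^ (2 * k - i) :=
            mul_le_mul_of_nonneg_left h1 (by positivity)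
          rw [← pow_add, show i + (2 * k - i) = 2 * k by omega] at h2
          have h3 : 0 ≤ |y| ^ (2 * k) := by positivity
          linarith
      rw [e1]
      calc _ ≤ (x ^ 2 * y ^ 2) * (x ^ (2 * k) + y ^ (2 * k)) :=
            mul_le_mul_of_nonneg_left e2 (by positivity)
        _ = _ := by ring
    refine (sum_le_sum hone).trans ?_
    rw [← mul_sum, mul_comm]
    refine mul_le_mul_of_nonneg_right ?_ hQ
    have h1 : (∑ i ∈ range (2 * k + 4 + 1), (2 * k + 4).choose i : ℕ) = 2 ^ (2 * k + 4) :=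
      Nat.sum_range_choose _
    have h2 : (∑ i ∈ range (2 * k + 1), (2 * k + 4).choose (i + 1 + 1) : ℕ) ≤
        ∑ i ∈ range (2 * k + 4 + 1), (2 * k + 4).choose i := by
      have h3 : ∀ g : ℕ → ℕ, ∑ i ∈ range (2 * k + 1), g (i + 1 + 1) ≤
          ∑ i ∈ range (2 * k + 1 + 1 + 1 + 1 + 1), g i := by
        intro g
        rw [sum_range_succ g (2 * k + 1 + 1 + 1 + 1), sum_range_succ g (2 * k + 1 + 1 + 1),
          sum_range_succ' g, sum_range_succ' (fun i => g (i + 1))]
        omega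
      exact h3 _
    rw [h1] at h2
    exact_mod_cast h2
  have c1 : ((2 * k + 4).choose (0 + 1) : ℝ) = 2 * k + 4 := by
    rw [zero_add, Nat.choose_one_right]
    push_cast
    ring
  have c2 : ((2 * k + 4).choose (2 * k + 1 + 1 + 1) : ℝ) = 2 * k + 4 := by
    rw [show 2 * k + 1 + 1 + 1 = 2 * k + 3 by ring, Nat.choose_symm_of_eq_add
      (show 2 * k + 4 = (2 * k + 3) + 1 by ring), Nat.choose_one_right]
    push_cast
    ring
  have c3 : ((2 * k + 4).choose (2 * k + 1 + 1 + 1 + 1) : ℝ) = 1 := by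
    rw [show 2 * k + 1 + 1 + 1 + 1 = 2 * k + 4 by ring, Nat.choose_self, Nat.cast_one]
  rw [c1, c2, c3, Nat.choose_zero_right, Nat.cast_one, pow_zero,
    show 2 * k + 4 - 0 = 2 * k + 4 by omega, show 2 * k + 4 - (0 + 1) = 2 * k + 3 by omega,
    show 2 * k + 4 - (2 * k + 1 + 1 + 1) = 1 by omega,
    show 2 * k + 4 - (2 * k + 1 + 1 + 1 + 1) = 0 by omega,
    show 2 * k + 1 + 1 + 1 = 2 * k + 3 by ring,
    show 2 * k + 3 + 1 = 2 * k + 4 by ring]
  rw [zero_add, pow_one, pow_one, pow_zero]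
  nlinarith [hmid]

end Pool.Agent.H47.ML
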