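import Pool.Agent.H47.ML.Mo
import Pool.Agent.H47.ML.Cen

/-!
# All moments of an asymptotically additive function, II: the recursion
-/

set_option autoImplicit false

open Filter Topology Finset

namespace Pool.Agent.H47.ML

open Pool.Agent.N940.MN

/-- central moments -/
noncomputable def cm (F : W → ℝ) (k r : ℕ) : ℝ := Ew r fun w => (F w - Ew r F) ^ (2 * k)

lemma even_nonneg (k : ℕ) (x : ℝ) : 0 ≤ x ^ (2 * k) := by
  rw [pow_mul]
  positivity

lemma cm_nonneg (F : W → ℝ) (k r : ℕ) : 0 ≤ cm F k r := Ew_nonneg fun _ _ => even_nonneg _ _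

lemma Ew2_mul (r s : ℕ) (a b : W → ℝ) :
    (Ew r fun u => Ew s fun v => a u * b v) = Ew r a * Ew s b := by
  simp only [Ew_mul_left]
  exact Ew_mul_right r (Ew s b) a

/-- the constant in the bound of the moments of the heights -/
noncomputable def Hc (k : ℕ) : ℝ := 4 ^ k * (2 * (4 * ((2 * k).factorial : ℝ)))

lemma Hc_nonneg (k : ℕ) : 0 ≤ Hc k := by unfold Hc; positivity

lemma mhh (k r : ℕ) : Ew r (fun w => Blk.hh w ^ (2 * k)) ≤ Hc k * (r : ℝ) ^ k := by
  have h1 : Ew r (fun w => Blk.hh w ^ (2 * k)) ≤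
      Ew r fun w => 4 ^ k * ((U (up w) : ℝ) ^ (2 * k) + (U (lo w) : ℝ) ^ (2 * k)) :=
    Ew_mono fun w _ => add_pow_even k _ _
  rw [Ew_mul_left, Ew_add] at h1
  have h2 := mU k r
  have h3 := mUlo k r
  refine h1.trans ?_
  unfold Hc
  calc (4 : ℝ) ^ k * (Ew r (fun w => (U (up w) : ℝ) ^ (2 * k)) +
        Ew r fun w => (U (lo w) : ℝ) ^ (2 * k))
      ≤ 4 ^ k * (4 * ((2 * k).factorial : ℝ) * (r : ℝ) ^ k +
          4 * ((2 * k).factorial : ℝ) * (r : ℝ) ^ k) :=
        mul_le_mul_of_nonneg_left (add_le_add h2 h3) (by positivity)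
    _ = _ := by ring

/-- two independent copies -/
lemma two_copies (k r : ℕ) (g : W → ℝ) (h0 : Ew r g = 0) :
    (Ew r fun u => Ew r fun v => (g u + g v) ^ (2 * k + 4)) ≤
      2 * (Ew r fun w => g w ^ (2 * k + 4)) +
        2 ^ (2 * k + 5) * ((Ew r fun w => g w ^ 2) * Ew r fun w => g w ^ (2 * k + 2)) := by
  have h1 : (Ew r fun u => Ew r fun v => (g u + g v) ^ (2 * k + 4)) ≤
      Ew r fun u => Ew r fun v => g u ^ (2 * k + 4) + g v ^ (2 * k + 4) +
        ((2 * k + 4) * (g u * g v ^ (2 * k + 3)) + (2 * k + 4) * (g u ^ (2 * k + 3) * g v)) +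
        (2 ^ (2 * k + 4) * (g u ^ 2 * g v ^ (2 * k + 2)) +
          2 ^ (2 * k + 4) * (g u ^ (2 * k + 2) * g v ^ 2)) := by
    refine Ew_mono fun u _ => Ew_mono fun v _ => (binom k (g u) (g v)).trans (le_of_eq ?_)
    ring
  refine h1.trans (le_of_eq ?_)
  simp only [Ew_add, Ew_mul_left, Ew_mul_right, Ew_const]
  have h2 : Ew r (fun u => g u) = 0 := h0
  rw [h2]
  ring

section adt

variable {F Fo : W → ℝ} {C c : ℝ} {r₀ : ℕ}

/-- the error term for doubled length -/
lemma err_moment (hA : Adt F Fo C c r₀) (k : ℕ) : ∃ K : ℝ, 0 ≤ K ∧ ∀ r : ℕ,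
    (Ew (r + r) fun w => ((F w - F (w.take r) - F (w.drop r)) -
      Ew (r + r) fun w => F w - F (w.take r) - F (w.drop r)) ^ (2 * k)) ≤ K * (r : ℝ) ^ k := by
  have hC := Kur.C_nonneg hA
  have hH := Hc_nonneg k
  refine ⟨4 ^ k * (C ^ (2 * k) * Hc k + (2 * C) ^ (2 * k)), by positivity, fun r => ?_⟩
  have hE : |Ew (r + r) fun w => F w - F (w.take r) - F (w.drop r)| ≤ 2 * C * Real.sqrt r := by
    have h1 := mean_join_le Main.mom hA r r
    have h2 : (Ew (r + r) fun w => F w - F (w.take r) - F (w.drop r)) =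
        Ew (r + r) F - Ew r F - Ew r F := by
      have h3 := Kur.decomp F r []
      have h4 : (Ew (r + r) fun w => F w - F (w.take r) - F (w.drop r)) =
          Ew (r + r) F - Ew r F - Ew r F := by
        simp only [List.take_nil, List.drop_nil] at h3
        linarith
      exact h4
    rw [h2]
    exact h1
  have h1 : (Ew (r + r) fun w => ((F w - F (w.take r) - F (w.drop r)) -
      Ew (r + r) fun w => F w - F (w.take r) - F (w.drop r)) ^ (2 * k)) ≤
      Ew (r + r) fun w => 4 ^ k * (C ^ (2 * k) * Blk.hh (w.take r) ^ (2 * k) +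
        (2 * C) ^ (2 * k) * (r : ℝ) ^ k) := by
    refine Ew_mono fun w _ => ?_
    rw [sub_eq_add_neg]
    refine (add_pow_even k _ _).trans (mul_le_mul_of_nonneg_left (add_le_add ?_ ?_)
      (by positivity))
    · rw [← even_abs, ← mul_pow]
      refine pow_le_pow_left₀ (abs_nonneg _) ?_ _
      have h6 := hA.join (w.take r) (w.drop r)
      rw [List.take_append_drop] at h6
      exact h6.trans (mul_le_mul_of_nonneg_left (Kur.mm_le _ _) hC)
    · rw [← even_abs, abs_neg]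
      refine (pow_le_pow_left₀ (abs_nonneg _) hE _).trans (le_of_eq ?_)
      rw [mul_pow, pow_mul (Real.sqrt r), Real.sq_sqrt (Nat.cast_nonneg r)]
  refine h1.trans ?_
  rw [Ew_mul_left, Ew_add, Ew_mul_left, Ew_const, Kur.Ew_split r r fun u _ => Blk.hh u ^ (2 * k)]
  simp only [Ew_const]
  have h2 := mul_le_mul_of_nonneg_left (mhh k r) (show (0 : ℝ) ≤ C ^ (2 * k) by positivity)
  calc (4 : ℝ) ^ k * (C ^ (2 * k) * Ew r (fun w => Blk.hh w ^ (2 * k)) +
        (2 * C) ^ (2 * k) * (r : ℝ) ^ k)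
      ≤ 4 ^ k * (C ^ (2 * k) * (Hc k * (r : ℝ) ^ k) + (2 * C) ^ (2 * k) * (r : ℝ) ^ k) :=
        mul_le_mul_of_nonneg_left (by linarith) (by positivity)
    _ = _ := by ring

lemma cm_dbl (hA : Adt F Fo C c r₀) (k : ℕ) (η : ℝ) (hη : 0 < η) : ∃ K : ℝ, 0 ≤ K ∧ ∀ r : ℕ,
    cm F (k + 2) (2 * r) ≤ (1 + η) ^ (2 * (k + 2)) * (2 * cm F (k + 2) r +
      2 ^ (2 * k + 5) * (Vw r F * cm F (k + 1) r)) + K * (r : ℝ) ^ (k + 2) := by
  obtain ⟨K, hK, hKr⟩ := err_moment hA (k + 2)
  refine ⟨(1 + 1 / η) ^ (2 * (k + 2)) * K, by positivity, fun r => ?_⟩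
  have h1 : cm F (k + 2) (2 * r) ≤ (1 + η) ^ (2 * (k + 2)) *
        (Ew (r + r) fun w => ((F (w.take r) - Ew r F) + (F (w.drop r) - Ew r F)) ^
          (2 * (k + 2))) +
      (1 + 1 / η) ^ (2 * (k + 2)) * (Ew (r + r) fun w => ((F w - F (w.take r) - F (w.drop r)) -
        Ew (r + r) fun w => F w - F (w.take r) - F (w.drop r)) ^ (2 * (k + 2))) := by
    unfold cm
    rw [two_mul r, ← Ew_mul_left, ← Ew_mul_left, ← Ew_add]
    refine Ew_mono fun w _ => ?_
    rw [Kur.decomp F r w]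
    exact add_pow_small (k + 2) η hη _ _
  have h2 : (Ew (r + r) fun w => ((F (w.take r) - Ew r F) + (F (w.drop r) - Ew r F)) ^
      (2 * (k + 2))) ≤ 2 * cm F (k + 2) r + 2 ^ (2 * k + 5) * (Vw r F * cm F (k + 1) r) := by
    rw [Kur.Ew_split r r fun u v => ((F u - Ew r F) + (F v - Ew r F)) ^ (2 * (k + 2))]
    have h3 := two_copies k r (fun u => F u - Ew r F) (Kur.Ew_centered F r)
    unfold cm Vw
    rw [show 2 * (k + 2) = 2 * k + 4 by ring, show 2 * (k + 1) = 2 * k + 2 by ring]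
    exact h3
  refine h1.trans (add_le_add (mul_le_mul_of_nonneg_left h2 (by positivity)) ?_)
  rw [mul_assoc]
  exact mul_le_mul_of_nonneg_left (hKr r) (by positivity)

lemma cm_step (hA : Adt F Fo C c r₀) (k : ℕ) (η : ℝ) (hη : 0 < η) : ∃ K : ℝ, 0 ≤ K ∧ ∀ r : ℕ,
    cm F k (r + 1) ≤ (1 + η) ^ (2 * k) * cm F k r + K := by
  have hC := Kur.C_nonneg hA
  refine ⟨(1 + 1 / η) ^ (2 * k) * (2 * C) ^ (2 * k), by positivity, fun r => ?_⟩
  have h1 : cm F k (r + 1) ≤ (1 + η) ^ (2 * k) *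
        (Ew (r + 1) fun w => (F (w.take r) - Ew r F) ^ (2 * k)) +
      (1 + 1 / η) ^ (2 * k) * (Ew (r + 1) fun w => ((F w - F (w.take r)) -
        Ew (r + 1) fun w => F w - F (w.take r)) ^ (2 * k)) := by
    unfold cm
    rw [← Ew_mul_left, ← Ew_mul_left, ← Ew_add]
    refine Ew_mono fun w _ => ?_
    rw [Kur.decomp1 F r w]
    exact add_pow_small k η hη _ _
  have h2 : (Ew (r + 1) fun w => (F (w.take r) - Ew r F) ^ (2 * k)) = cm F k r := by
    rw [Kur.Ew_split r 1 fun u _ => (F u - Ew r F) ^ (2 * k)]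
    simp only [Ew_const]
    rfl
  have h3 : |Ew (r + 1) fun w => F w - F (w.take r)| ≤ C := by
    refine (abs_Ew_le _ _).trans ?_
    have h4 : (Ew (r + 1) fun w => |F w - F (w.take r)|) ≤ Ew (r + 1) fun _ => C :=
      Ew_mono fun w hw => Kur.step_abs hA r w hw
    rwa [Ew_const] at h4
  have h4 : (Ew (r + 1) fun w => ((F w - F (w.take r)) -
        Ew (r + 1) fun w => F w - F (w.take r)) ^ (2 * k)) ≤ (2 * C) ^ (2 * k) := by
    have h5 : (Ew (r + 1) fun w => ((F w - F (w.take r)) -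
        Ew (r + 1) fun w => F w - F (w.take r)) ^ (2 * k)) ≤
        Ew (r + 1) fun _ => (2 * C) ^ (2 * k) := by
      refine Ew_mono fun w hw => ?_
      rw [← even_abs]
      refine pow_le_pow_left₀ (abs_nonneg _) ?_ _
      have h6 := Kur.step_abs hA r w hw
      refine (abs_sub _ _).trans ?_
      linarith
    rwa [Ew_const] at h5
  rw [h2] at h1
  exact h1.trans (add_le_add le_rfl (mul_le_mul_of_nonneg_left h4 (by positivity)))

/-! ### the variances -/

lemma V_tendsto (hA : Adt F Fo C c r₀) : Tendsto (fun r : ℕ => Vw r F) atTop atTop := by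
  have h1 : Tendsto (fun r : ℕ => c * (r : ℝ)) atTop atTop :=
    tendsto_natCast_atTop_atTop.const_mul_atTop hA.cpos
  refine tendsto_atTop_mono' atTop ?_ h1
  filter_upwards [eventually_ge_atTop r₀] with r hr
  exact hA.var r hr

lemma half_ratio (hA : Adt F Fo C c r₀) :
    Tendsto (fun r : ℕ => Vw r F / Vw (2 * r) F) atTop (𝓝 (1 / 2)) := by
  have h1 := ((var_ratio Main.kur hA).inv₀ one_ne_zero).div_const 2
  rw [inv_one] at h1
  refine h1.congr' ?_
  filter_upwards [eventually_ge_atTop (r₀ + 1)] with r hr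
  have h2 := Vw_pos hA (n := r) (by omega) (by omega)
  have h3 := Vw_pos hA (n := 2 * r) (by omega) (by omega)
  field_simp

lemma next_ratio (hA : Adt F Fo C c r₀) :
    Tendsto (fun r : ℕ => Vw r F / Vw (r + 1) F) atTop (𝓝 1) := by
  obtain ⟨-, h, -, -⟩ := Main.kur F Fo C c r₀ hA
  have hC := Kur.C_nonneg hA
  have h1 : Tendsto (fun r : ℕ => Real.sqrt (Vw r F) / Real.sqrt (Vw (r + 1) F)) atTop
      (𝓝 1) := by
    have h2 : Tendsto (fun r : ℕ => C / Real.sqrt (Vw (r + 1) F)) atTop (𝓝 0) :=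
      Tendsto.const_div_atTop (Real.tendsto_sqrt_atTop.comp
        ((V_tendsto hA).comp (tendsto_add_atTop_nat 1))) C
    rw [tendsto_iff_norm_sub_tendsto_zero]
    refine squeeze_zero' (Eventually.of_forall fun r => norm_nonneg _) ?_ h2
    filter_upwards [eventually_ge_atTop (r₀ + 1)] with r hr
    have h3 := Vw_pos hA (n := r + 1) (by omega) (by omega)
    have h4 : 0 < Real.sqrt (Vw (r + 1) F) := Real.sqrt_pos.2 h3
    rw [Real.norm_eq_abs, show Real.sqrt (Vw r F) / Real.sqrt (Vw (r + 1) F) - 1 =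
      (Real.sqrt (Vw r F) - Real.sqrt (Vw (r + 1) F)) / Real.sqrt (Vw (r + 1) F) by
        field_simp, abs_div, abs_of_pos h4]
    refine div_le_div_of_nonneg_right ?_ h4.le
    rw [abs_sub_comm]
    exact h r
  have h2 := h1.pow 2
  rw [one_pow] at h2
  refine h2.congr' ?_
  filter_upwards [] with r
  rw [div_pow, Real.sq_sqrt (Kur.Vw_nonneg _ _), Real.sq_sqrt (Kur.Vw_nonneg _ _)]

end adt

/-- bounded sequences by a recursion along doubling -/
lemma bdd_dbl (ρ : ℕ → ℝ) (K : ℝ) (R : ℕ) (hR : 1 ≤ R)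
    (h : ∀ r : ℕ, R ≤ r → ρ (2 * r) ≤ 4 / 5 * ρ r + K ∧ ρ (2 * r + 1) ≤ 4 / 5 * ρ r + K) :
    ∃ B : ℝ, 0 < B ∧ ∀ r : ℕ, R ≤ r → ρ r ≤ B := by
  have hs : 0 ≤ ∑ i ∈ range (2 * R), |ρ i| := sum_nonneg fun _ _ => abs_nonneg _
  refine ⟨5 * |K| + 1 + ∑ i ∈ range (2 * R), |ρ i|, by positivity, fun r => ?_⟩
  induction r using Nat.strong_induction_on with
  | _ r ih =>
    intro hr
    rcases lt_or_ge r (2 * R) with h1 | h1
    · have h2 : |ρ r| ≤ ∑ i ∈ range (2 * R), |ρ i| :=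
        single_le_sum (f := fun i => |ρ i|) (fun i _ => abs_nonneg _) (mem_range.2 h1)
      have h3 := le_abs_self (ρ r)
      have h4 := abs_nonneg K
      linarith
    · obtain ⟨s, hs' | hs'⟩ : ∃ s, r = 2 * s ∨ r = 2 * s + 1 := ⟨r / 2, by omega⟩
      · have h2 := (h s (by omega)).1
        rw [← hs'] at h2
        have h3 := ih s (by omega) (by omega)
        have h4 := le_abs_self K
        linarith
      · have h2 := (h s (by omega)).2
        rw [← hs'] at h2
        have h3 := ih s (by omega) (by omega)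
        have h4 := le_abs_self K
        linarith

end Pool.Agent.H47.ML
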