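import Pool.Agent.H47.ML.Mo2

/-!
# All moments of an asymptotically additive function, III: bounds
-/

set_option autoImplicit false

open Filter Topology Finset

namespace Pool.Agent.H47.ML

open Pool.Agent.N940.MN

section adt

variable {F Fo : W → ℝ} {C c : ℝ} {r₀ : ℕ}

lemma small_eta (n : ℕ) : ∃ η : ℝ, 0 < η ∧ (1 + η) ^ n ≤ 1.1 := by
  have h1 : Tendsto (fun η : ℝ => (1 + η) ^ n) (𝓝[>] 0) (𝓝 1) := by
    have h2 : Continuous fun η : ℝ => (1 + η) ^ n := by fun_prop
    have h3 := (h2.tendsto 0).mono_left (nhdsWithin_le_nhds (s := Set.Ioi (0 : ℝ)))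
    simpa using h3
  have h2 := (h1.eventually_lt_const (show (1 : ℝ) < 1.1 by norm_num)).and
    (self_mem_nhdsWithin : Set.Ioi (0 : ℝ) ∈ 𝓝[>] 0)
  obtain ⟨η, h3, h4⟩ := h2.exists
  exact ⟨η, h4, h3.le⟩

/-- **all central moments are bounded by the powers of the variance** -/
theorem all_moments (hA : Adt F Fo C c r₀) (k : ℕ) : ∃ (κ : ℝ) (R : ℕ), 0 < κ ∧ ∀ r : ℕ, R ≤ r →
    cm F k r ≤ κ * Vw r F ^ k := by
  induction k with
  | zero =>
    refine ⟨1, 0, one_pos, fun r _ => ?_⟩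
    unfold cm
    simp only [mul_zero, pow_zero, mul_one]
    rw [Ew_const]
  | succ k ih =>
    rcases k with _ | k
    · refine ⟨1, 0, one_pos, fun r _ => ?_⟩
      unfold cm Vw
      norm_num
    · obtain ⟨κ1, R1, hκ1, hR1⟩ := ih
      obtain ⟨η, hη, hη1⟩ := small_eta (2 * (k + 2))
      obtain ⟨K1, hK1, h1⟩ := cm_dbl hA k η hη
      obtain ⟨K2, hK2, h2⟩ := cm_step hA (k + 2) η hη
      have hc := hA.cpos
      have e1 : ∀ᶠ r : ℕ in atTop, (Vw r F / Vw (2 * r) F) ^ (k + 2) < 0.26 := by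
        have h3 := (half_ratio hA).pow (k + 2)
        refine h3.eventually_lt_const ?_
        have h4 : (1 / 2 : ℝ) ^ (k + 2) ≤ (1 / 2) ^ 2 :=
          pow_le_pow_of_le_one (by norm_num) (by norm_num) (by omega)
        refine lt_of_le_of_lt h4 (by norm_num)
      have e2 : ∀ᶠ r : ℕ in atTop, (Vw r F / Vw (r + 1) F) ^ (k + 2) < 1.01 := by
        have h3 := (next_ratio hA).pow (k + 2)
        rw [one_pow] at h3
        exact h3.eventually_lt_const (by norm_num)
      have e3 : ∀ᶠ r : ℕ in atTop, 1 ≤ Vw r F := (V_tendsto hA).eventually_ge_atTop 1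
      obtain ⟨R2, hR2⟩ := eventually_atTop.1 (e1.and (e2.and e3))
      set A : ℝ := 0.26 * (1.1 * (2 ^ (2 * k + 5) * κ1) + K1 / c ^ (k + 2)) with hAdef
      have hA0 : 0 ≤ A := by positivity
      obtain ⟨B, hB, hBr⟩ := bdd_dbl (fun r => cm F (k + 2) r / Vw r F ^ (k + 2)) (2 * A + K2)
        (R1 + R2 + r₀ + 1) (by omega) (fun r hr => by
          have hv1 : 1 ≤ Vw r F := (hR2 r (by omega)).2.2
          have hv2 : 1 ≤ Vw (2 * r) F := (hR2 (2 * r) (by omega)).2.2
          have hv3 : 1 ≤ Vw (2 * r + 1) F := (hR2 (2 * r + 1) (by omega)).2.2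
          have q1 := (hR2 r (by omega)).1
          have q2 := (hR2 (2 * r) (by omega)).2.1
          have hy := hR1 r (by omega)
          have hcr := hA.var r (by omega)
          have hd := h1 r
          have hst := h2 (2 * r)
          set v := Vw r F with hv
          set v2 := Vw (2 * r) F with hv2d
          set v3 := Vw (2 * r + 1) F with hv3d
          set x := cm F (k + 2) r with hx
          set x2 := cm F (k + 2) (2 * r) with hx2
          set x3 := cm F (k + 2) (2 * r + 1) with hx3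
          have hx0 : 0 ≤ x := cm_nonneg _ _ _
          have hx20 : 0 ≤ x2 := cm_nonneg _ _ _
          have hvp : 0 < v ^ (k + 2) := by positivity
          have hv2p : 0 < v2 ^ (k + 2) := by positivity
          have hv3p : 1 ≤ v3 ^ (k + 2) := one_le_pow₀ hv3
          set ρ := x / v ^ (k + 2) with hρ
          have hρ0 : 0 ≤ ρ := by positivity
          have hxρ : x = ρ * v ^ (k + 2) := by
            rw [hρ]
            field_simp
          rw [div_pow, div_lt_iff₀ hv2p] at q1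
          rw [div_pow, div_lt_iff₀ (by positivity)] at q2
          have hy' : v * cm F (k + 1) r ≤ κ1 * v ^ (k + 2) := by
            calc v * cm F (k + 1) r ≤ v * (κ1 * v ^ (k + 1)) :=
                  mul_le_mul_of_nonneg_left hy (by linarith)
              _ = κ1 * v ^ (k + 2) := by ring
          have hr' : (r : ℝ) ^ (k + 2) ≤ v ^ (k + 2) / c ^ (k + 2) := by
            rw [le_div_iff₀ (by positivity), ← mul_pow]
            refine pow_le_pow_left₀ (by positivity) ?_ _
            linarith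
          have hx2' : x2 ≤ (0.572 * ρ + A) * v2 ^ (k + 2) := by
            have g1 : (1 + η) ^ (2 * (k + 2)) * (2 * x + 2 ^ (2 * k + 5) * (v * cm F (k + 1) r)) ≤
                1.1 * (2 * (ρ * v ^ (k + 2)) + 2 ^ (2 * k + 5) * (κ1 * v ^ (k + 2))) := by
              have g2 : 2 * x + 2 ^ (2 * k + 5) * (v * cm F (k + 1) r) ≤
                  2 * (ρ * v ^ (k + 2)) + 2 ^ (2 * k + 5) * (κ1 * v ^ (k + 2)) := by
                have := mul_le_mul_of_nonneg_left hy' (show (0 : ℝ) ≤ 2 ^ (2 * k + 5) by positivity)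
                linarith
              have g3 : 0 ≤ 2 * x + 2 ^ (2 * k + 5) * (v * cm F (k + 1) r) := by
                have := cm_nonneg F (k + 1) r
                positivity
              exact mul_le_mul hη1 g2 g3 (by norm_num)
            have g4 : K1 * (r : ℝ) ^ (k + 2) ≤ K1 / c ^ (k + 2) * v ^ (k + 2) := by
              calc K1 * (r : ℝ) ^ (k + 2) ≤ K1 * (v ^ (k + 2) / c ^ (k + 2)) :=
                    mul_le_mul_of_nonneg_left hr' hK1
                _ = _ := by ring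
            have g5 : x2 ≤ (1.1 * (2 * ρ + 2 ^ (2 * k + 5) * κ1) + K1 / c ^ (k + 2)) *
                v ^ (k + 2) := by
              calc x2 ≤ _ := hd
                _ ≤ _ := add_le_add g1 g4
                _ = _ := by ring
            refine g5.trans ?_
            have g6 : 0 ≤ 1.1 * (2 * ρ + 2 ^ (2 * k + 5) * κ1) + K1 / c ^ (k + 2) := by positivity
            calc _ ≤ (1.1 * (2 * ρ + 2 ^ (2 * k + 5) * κ1) + K1 / c ^ (k + 2)) *
                  (0.26 * v2 ^ (k + 2)) := mul_le_mul_of_nonneg_left q1.le g6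
              _ = _ := by rw [hAdef]; ring
          constructor
          · show x2 / v2 ^ (k + 2) ≤ 4 / 5 * ρ + (2 * A + K2)
            rw [div_le_iff₀ hv2p]
            refine hx2'.trans (mul_le_mul_of_nonneg_right ?_ hv2p.le)
            linarith
          · show x3 / v3 ^ (k + 2) ≤ 4 / 5 * ρ + (2 * A + K2)
            rw [div_le_iff₀ (by linarith)]
            have g7 : (1 + η) ^ (2 * (k + 2)) * x2 ≤
                1.1 * ((0.572 * ρ + A) * (1.01 * v3 ^ (k + 2))) := by
              refine mul_le_mul hη1 (hx2'.trans (mul_le_mul_of_nonneg_left q2.le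
                (by positivity))) hx20 (by norm_num)
            have g8 : K2 ≤ K2 * v3 ^ (k + 2) := le_mul_of_one_le_right hK2 hv3p
            have g9 : x3 ≤ (1.1 * ((0.572 * ρ + A) * 1.01) + K2) * v3 ^ (k + 2) := by
              calc x3 ≤ _ := hst
                _ ≤ _ := add_le_add g7 g8
                _ = _ := by ring
            refine g9.trans (mul_le_mul_of_nonneg_right ?_ (by linarith))
            linarith)
      refine ⟨B, R1 + R2 + r₀ + 1, hB, fun r hr => ?_⟩
      have h3 := hBr r hr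
      have h4 : 1 ≤ Vw r F := (hR2 r (by omega)).2.2
      rwa [div_le_iff₀ (by positivity)] at h3

/-- **all moments for bridges** -/
theorem all_moments_bridge (hA : Adt F Fo C c r₀) (k : ℕ) : ∃ (κ : ℝ) (R : ℕ), 0 < κ ∧
    ∀ n : ℕ, R ≤ n → EB n (fun w => (Fo w - 2 * Ew n F) ^ (2 * k)) ≤ κ * (2 * Vw n F) ^ k := by
  have hC := Kur.C_nonneg hA
  have hc := hA.cpos
  obtain ⟨c₀, D, hc₀, hD0, hpb, hDs⟩ := Blk.dens Main.dens
  obtain ⟨κ, R, hκ, hR⟩ := all_moments hA k
  have hH := Hc_nonneg k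
  have hU := Main.u
  refine ⟨4 ^ k * (4 ^ k * (4 ^ k * (C ^ (2 * k) * (2 * (D * Hc k)) / c ^ k) +
    4 ^ k * (C ^ (2 * k) * (D * Hc k) / c ^ k)) + 4 ^ k * (2 * (D * κ))) + 1, R + r₀ + 1,
    by positivity, fun n hn => ?_⟩
  have hn1 : 0 < n := by omega
  have hn' : (0 : ℝ) < n := Nat.cast_pos.2 hn1
  have hv := hA.var n (by omega)
  have hv0 : 0 ≤ Vw n F := Kur.Vw_nonneg _ _
  have hnk : (n : ℝ) ^ k ≤ Vw n F ^ k / c ^ k := by
    rw [le_div_iff₀ (by positivity), ← mul_pow]
    refine pow_le_pow_left₀ (by positivity) ?_ _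
    linarith
  -- the two halves
  have hsplit : ∀ w : W, w.length = 2 * n → Blk.sub 0 n w ++ Blk.sub n n w = w := by
    intro w hw
    have h6 := Blk.sub_append 0 n n w
    rw [Nat.zero_add] at h6
    rw [h6]
    unfold Blk.sub
    rw [List.drop_zero]
    exact List.take_of_length_le (by omega)
  have f0 := fun Ψ hΨ => hDs n 0 n hn1 (by omega) le_rfl Ψ hΨ
  have f1 := fun Ψ hΨ => hDs n n n hn1 (by omega) le_rfl Ψ hΨ
  have hh := mhh k n
  have hh' : D * Ew n (fun w => Blk.hh w ^ (2 * k)) ≤ D * Hc k * (n : ℝ) ^ k := by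
    rw [mul_assoc]
    exact mul_le_mul_of_nonneg_left hh hD0.le
  have g0 : EB n (fun w => Blk.hh (Blk.sub 0 n w) ^ (2 * k)) ≤ D * Hc k * (n : ℝ) ^ k :=
    (f0 (fun w => Blk.hh w ^ (2 * k)) (fun w => even_nonneg _ _)).trans hh'
  have g1 : EB n (fun w => Blk.hh (Blk.sub n n w) ^ (2 * k)) ≤ D * Hc k * (n : ℝ) ^ k :=
    (f1 (fun w => Blk.hh w ^ (2 * k)) (fun w => even_nonneg _ _)).trans hh'
  have e1 : EB n (fun w => (Fo w - F w) ^ (2 * k)) ≤
      4 ^ k * (C ^ (2 * k) * (2 * (D * Hc k)) * (n : ℝ) ^ k) := by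
    have h1 : EB n (fun w => (Fo w - F w) ^ (2 * k)) ≤
        (4 ^ k * C ^ (2 * k)) * (EB n (fun w => Blk.hh (Blk.sub 0 n w) ^ (2 * k)) +
          EB n fun w => Blk.hh (Blk.sub n n w) ^ (2 * k)) := by
      rw [← Blk.EB_add, ← Blk.EB_mul_left]
      refine Blk.EB_mono fun w hw hb => ?_
      have h2 := hA.close w hb
      have h3 : |Fo w - F w| ≤ C * (Blk.hh (Blk.sub 0 n w) + Blk.hh (Blk.sub n n w)) := by
        refine h2.trans (mul_le_mul_of_nonneg_left ?_ hC)
        have h4 := Blk.hh_append hU (Blk.sub 0 n w) (Blk.sub n n w)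
        rw [hsplit w hw] at h4
        exact h4
      have h4 := pow_le_pow_left₀ (abs_nonneg _) h3 (2 * k)
      rw [even_abs, mul_pow] at h4
      refine h4.trans ?_
      have h5 := add_pow_even k (Blk.hh (Blk.sub 0 n w)) (Blk.hh (Blk.sub n n w))
      calc _ ≤ C ^ (2 * k) * (4 ^ k * (Blk.hh (Blk.sub 0 n w) ^ (2 * k) +
            Blk.hh (Blk.sub n n w) ^ (2 * k))) := mul_le_mul_of_nonneg_left h5 (by positivity)
        _ = _ := by ring
    refine h1.trans ?_
    calc _ ≤ (4 ^ k * C ^ (2 * k)) * (D * Hc k * (n : ℝ) ^ k + D * Hc k * (n : ℝ) ^ k) :=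
          mul_le_mul_of_nonneg_left (add_le_add g0 g1) (by positivity)
      _ = _ := by ring
  have e2 : EB n (fun w => (F w - F (Blk.sub 0 n w) - F (Blk.sub n n w)) ^ (2 * k)) ≤
      4 ^ k * (C ^ (2 * k) * (D * Hc k) * (n : ℝ) ^ k) := by
    have h1 : EB n (fun w => (F w - F (Blk.sub 0 n w) - F (Blk.sub n n w)) ^ (2 * k)) ≤
        C ^ (2 * k) * EB n fun w => Blk.hh (Blk.sub 0 n w) ^ (2 * k) := by
      rw [← Blk.EB_mul_left]
      refine Blk.EB_mono fun w hw hb => ?_
      have h2 := hA.join (Blk.sub 0 n w) (Blk.sub n n w)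
      rw [hsplit w hw] at h2
      have h3 : |F w - F (Blk.sub 0 n w) - F (Blk.sub n n w)| ≤ C * Blk.hh (Blk.sub 0 n w) :=
        h2.trans (mul_le_mul_of_nonneg_left (Kur.mm_le _ _) hC)
      have h4 := pow_le_pow_left₀ (abs_nonneg _) h3 (2 * k)
      rwa [even_abs, mul_pow] at h4
    refine h1.trans ?_
    have h4k : (1 : ℝ) ≤ 4 ^ k := one_le_pow₀ (by norm_num)
    have h5 : 0 ≤ C ^ (2 * k) * (D * Hc k) * (n : ℝ) ^ k := by positivity
    calc _ ≤ C ^ (2 * k) * (D * Hc k * (n : ℝ) ^ k) :=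
          mul_le_mul_of_nonneg_left g0 (by positivity)
      _ = C ^ (2 * k) * (D * Hc k) * (n : ℝ) ^ k := by ring
      _ ≤ _ := le_mul_of_one_le_left h5 h4k
  have h4 : Ew n (fun w => (F w - Ew n F) ^ (2 * k)) ≤ κ * Vw n F ^ k := hR n (by omega)
  have e3 : EB n (fun w => (F (Blk.sub 0 n w) - Ew n F) ^ (2 * k)) ≤ D * κ * Vw n F ^ k := by
    refine (f0 (fun w => (F w - Ew n F) ^ (2 * k)) (fun w => even_nonneg _ _)).trans ?_
    have := mul_le_mul_of_nonneg_left h4 hD0.le
    linarith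
  have e4 : EB n (fun w => (F (Blk.sub n n w) - Ew n F) ^ (2 * k)) ≤ D * κ * Vw n F ^ k := by
    refine (f1 (fun w => (F w - Ew n F) ^ (2 * k)) (fun w => even_nonneg _ _)).trans ?_
    have := mul_le_mul_of_nonneg_left h4 hD0.le
    linarith
  have e5 : EB n (fun w => (Fo w - 2 * Ew n F) ^ (2 * k)) ≤
      4 ^ k * (4 ^ k * (EB n (fun w => (Fo w - F w) ^ (2 * k)) +
        EB n (fun w => (F w - F (Blk.sub 0 n w) - F (Blk.sub n n w)) ^ (2 * k))) +
        4 ^ k * (EB n (fun w => (F (Blk.sub 0 n w) - Ew n F) ^ (2 * k)) +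
        EB n (fun w => (F (Blk.sub n n w) - Ew n F) ^ (2 * k)))) := by
    rw [← Blk.EB_add, ← Blk.EB_add, ← Blk.EB_mul_left, ← Blk.EB_mul_left, ← Blk.EB_add,
      ← Blk.EB_mul_left]
    refine Blk.EB_mono fun w _ _ => ?_
    have h6 := add_pow_even k ((Fo w - F w) + (F w - F (Blk.sub 0 n w) - F (Blk.sub n n w)))
      ((F (Blk.sub 0 n w) - Ew n F) + (F (Blk.sub n n w) - Ew n F))
    have h7 := add_pow_even k (Fo w - F w) (F w - F (Blk.sub 0 n w) - F (Blk.sub n n w))
    have h8 := add_pow_even k (F (Blk.sub 0 n w) - Ew n F) (F (Blk.sub n n w) - Ew n F)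
    have h9 : Fo w - 2 * Ew n F = ((Fo w - F w) + (F w - F (Blk.sub 0 n w) - F (Blk.sub n n w))) +
      ((F (Blk.sub 0 n w) - Ew n F) + (F (Blk.sub n n w) - Ew n F)) := by ring
    rw [h9]
    refine h6.trans (mul_le_mul_of_nonneg_left (add_le_add h7 h8) (by positivity))
  refine e5.trans ?_
  have hV2 : Vw n F ^ k ≤ (2 * Vw n F) ^ k := pow_le_pow_left₀ hv0 (by linarith) k
  have e6 : 4 ^ k * (C ^ (2 * k) * (2 * (D * Hc k)) * (n : ℝ) ^ k) ≤
      4 ^ k * (C ^ (2 * k) * (2 * (D * Hc k)) / c ^ k) * Vw n F ^ k := by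
    calc _ ≤ 4 ^ k * (C ^ (2 * k) * (2 * (D * Hc k)) * (Vw n F ^ k / c ^ k)) :=
          mul_le_mul_of_nonneg_left (mul_le_mul_of_nonneg_left hnk (by positivity))
            (by positivity)
      _ = _ := by ring
  have e7 : 4 ^ k * (C ^ (2 * k) * (D * Hc k) * (n : ℝ) ^ k) ≤
      4 ^ k * (C ^ (2 * k) * (D * Hc k) / c ^ k) * Vw n F ^ k := by
    calc _ ≤ 4 ^ k * (C ^ (2 * k) * (D * Hc k) * (Vw n F ^ k / c ^ k)) :=
          mul_le_mul_of_nonneg_left (mul_le_mul_of_nonneg_left hnk (by positivity))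
            (by positivity)
      _ = _ := by ring
  calc _ ≤ 4 ^ k * (4 ^ k * (4 ^ k * (C ^ (2 * k) * (2 * (D * Hc k)) / c ^ k) * Vw n F ^ k +
        4 ^ k * (C ^ (2 * k) * (D * Hc k) / c ^ k) * Vw n F ^ k) +
        4 ^ k * (D * κ * Vw n F ^ k + D * κ * Vw n F ^ k)) := by
        refine mul_le_mul_of_nonneg_left (add_le_add (mul_le_mul_of_nonneg_left
          (add_le_add (e1.trans e6) (e2.trans e7)) (by positivity))
          (mul_le_mul_of_nonneg_left (add_le_add e3 e4) (by positivity))) (by positivity)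
    _ = (4 ^ k * (4 ^ k * (4 ^ k * (C ^ (2 * k) * (2 * (D * Hc k)) / c ^ k) +
        4 ^ k * (C ^ (2 * k) * (D * Hc k) / c ^ k)) + 4 ^ k * (2 * (D * κ)))) * Vw n F ^ k := by
        ring
    _ ≤ (4 ^ k * (4 ^ k * (4 ^ k * (C ^ (2 * k) * (2 * (D * Hc k)) / c ^ k) +
        4 ^ k * (C ^ (2 * k) * (D * Hc k) / c ^ k)) + 4 ^ k * (2 * (D * κ))) + 1) *
          (2 * Vw n F) ^ k := by
        refine mul_le_mul (by linarith) hV2 (by positivity) (by positivity)

end adt

end Pool.Agent.H47.ML
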