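import Pool.Agent.H47.ML.Mo3
import Pool.Agent.H47.ML.Fin

/-!
# Convergence of all moments
-/

set_option autoImplicit false

open Filter Topology Finset MeasureTheory ProbabilityTheory BoundedContinuousFunction

namespace Pool.Agent.H47.ML

open Pool.Agent.N940.MN

lemma even_le (k : ℕ) (x : ℝ) : 0 ≤ x ^ (2 * k) := even_nonneg k x

/-- truncated powers -/
noncomputable def trunc (k : ℕ) (M : ℝ) (x : ℝ) : ℝ := max (-M) (min M (x ^ k))

lemma trunc_cont (k : ℕ) (M : ℝ) : Continuous (trunc k M) := by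
  unfold trunc
  fun_prop

lemma trunc_bound (k : ℕ) {M : ℝ} (hM : 0 < M) (x : ℝ) : ‖trunc k M x‖ ≤ M := by
  unfold trunc
  rw [Real.norm_eq_abs, abs_le]
  exact ⟨le_max_left _ _, max_le (by linarith) (min_le_left _ _)⟩

lemma trunc_err (k : ℕ) {M : ℝ} (hM : 0 < M) (x : ℝ) : |x ^ k - trunc k M x| ≤
    x ^ (2 * k) / M := by
  have h0 : 0 ≤ x ^ (2 * k) / M := div_nonneg (even_le k x) hM.le
  have hsq : x ^ (2 * k) = (x ^ k) ^ 2 := by rw [← pow_mul, mul_comm]
  unfold trunc
  rcases le_or_gt (x ^ k) M with h1 | h1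
  · rw [min_eq_right h1]
    rcases le_or_gt (-M) (x ^ k) with h2 | h2
    · rw [max_eq_right h2, sub_self, abs_zero]
      exact h0
    · rw [max_eq_left h2.le, le_div_iff₀ hM, hsq, abs_of_neg (by linarith)]
      nlinarith
  · rw [min_eq_left h1.le, max_eq_right (by linarith), le_div_iff₀ hM, hsq,
      abs_of_pos (by linarith)]
    nlinarith

lemma integrable_pow_gauss (k : ℕ) : Integrable (fun x : ℝ => x ^ k) (gaussianReal 0 1) := by
  have h1 : MemLp (id : ℝ → ℝ) (k : ENNReal) (gaussianReal 0 1) := by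
    have := memLp_id_gaussianReal (μ := 0) (v := 1) (k : NNReal)
    simpa using this
  have h2 := h1.integrable_norm_pow'
  refine h2.mono' (by fun_prop) (Eventually.of_forall fun x => ?_)
  simp

/-- from characteristic functions to moments, for finitely supported laws with bounded moments -/
lemma moment_of_char (P : ℕ → Type) [∀ n, Fintype (P n)] [∀ n, Nonempty (P n)]
    (Z : ∀ n, P n → ℝ) (h : ∀ t : ℝ, Tendsto (fun n => ((Fintype.card (P n) : ℂ))⁻¹ *
      ∑ p : P n, Complex.exp (Complex.I * ((t * Z n p : ℝ) : ℂ))) atTop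
        (𝓝 (Complex.exp ((-(t ^ 2) / 2 : ℝ) : ℂ)))) (k : ℕ) (κ : ℝ)
    (hκ : ∀ᶠ n in atTop, ((Fintype.card (P n) : ℝ))⁻¹ * ∑ p : P n, Z n p ^ (2 * k) ≤ κ) :
    Tendsto (fun n => ((Fintype.card (P n) : ℝ))⁻¹ * ∑ p : P n, Z n p ^ k) atTop
      (𝓝 (∫ x, x ^ k ∂(gaussianReal 0 1))) := by
  classical
  obtain ⟨c, hc⟩ : ∃ c : ℕ → ENNReal, c = fun n => ((Fintype.card (P n) : ℕ) : ENNReal)⁻¹ :=
    ⟨_, rfl⟩
  have hcard : ∀ n, 0 < Fintype.card (P n) := fun n => Fintype.card_pos
  obtain ⟨μ, hμ⟩ : ∃ μ : ℕ → Measure ℝ, μ = fun n => c n • ∑ p : P n, Measure.dirac (Z n p) :=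
    ⟨_, rfl⟩
  have hprob : ∀ n, IsProbabilityMeasure (μ n) := by
    intro n
    constructor
    rw [hμ]
    simp only [Measure.smul_apply, Measure.finsetSum_apply, measure_univ, sum_const, card_univ,
      nsmul_eq_mul, mul_one, smul_eq_mul]
    rw [hc]
    exact ENNReal.inv_mul_cancel (by exact_mod_cast (hcard n).ne') (ENNReal.natCast_ne_top _)
  have hint : ∀ n (g : ℝ → ℂ), ∫ x, g x ∂(μ n) =
      ((Fintype.card (P n) : ℂ))⁻¹ * ∑ p : P n, g (Z n p) := by
    intro n g
    rw [hμ]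
    simp only
    rw [integral_smul_measure, integral_finsetSum_measure fun i _ => integrable_dirac
      (by simp [enorm_lt_top])]
    simp only [integral_dirac]
    rw [hc]
    simp only [ENNReal.toReal_inv, ENNReal.toReal_natCast, Complex.real_smul]
    push_cast
    rfl
  have hintR : ∀ n (g : ℝ → ℝ), ∫ x, g x ∂(μ n) =
      ((Fintype.card (P n) : ℝ))⁻¹ * ∑ p : P n, g (Z n p) := by
    intro n g
    rw [hμ]
    simp only
    rw [integral_smul_measure, integral_finsetSum_measure fun i _ => integrable_dirac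
      (by simp [enorm_lt_top])]
    simp only [integral_dirac]
    rw [hc]
    simp only [ENNReal.toReal_inv, ENNReal.toReal_natCast, smul_eq_mul]
  let μP : ℕ → ProbabilityMeasure ℝ := fun n => ⟨μ n, hprob n⟩
  let G : ProbabilityMeasure ℝ := ⟨gaussianReal 0 1, inferInstance⟩
  have hconv : Tendsto μP atTop (𝓝 G) := by
    rw [ProbabilityMeasure.tendsto_iff_tendsto_charFun]
    intro θ
    have e1 : charFun (G : Measure ℝ) θ = Complex.exp ((-(θ ^ 2) / 2 : ℝ) : ℂ) := by
      change charFun (ProbabilityTheory.gaussianReal 0 1) θ = _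
      rw [ProbabilityTheory.charFun_gaussianReal]
      congr 1
      push_cast
      ring
    rw [e1]
    refine (h θ).congr fun n => ?_
    change _ = charFun (μ n) θ
    rw [charFun_apply_real, hint]
    congr 1
    refine sum_congr rfl fun p _ => ?_
    congr 1
    push_cast
    ring
  set Gk : ℝ := ∫ x, x ^ (2 * k) ∂(gaussianReal 0 1) with hGk
  have hGk0 : 0 ≤ Gk := integral_nonneg fun x => even_le k x
  rw [Metric.tendsto_atTop']
  intro ε hε
  obtain ⟨M, hM⟩ : ∃ M : ℝ, M = 3 * (|κ| + Gk + 1) / ε + 1 := ⟨_, rfl⟩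
  have hM0 : 0 < M := by rw [hM]; positivity
  have hMε : |κ| + Gk + 1 < M * (ε / 3) := by
    have e0 : (3 * (|κ| + Gk + 1) / ε + 1) * (ε / 3) = |κ| + Gk + 1 + ε / 3 := by
      field_simp
    rw [hM, e0]
    linarith
  let T : ℝ →ᵇ ℝ := BoundedContinuousFunction.ofNormedAddCommGroup (trunc k M) (trunc_cont k M) M
    (trunc_bound k hM0)
  have hT := (ProbabilityMeasure.tendsto_iff_forall_integral_tendsto.1 hconv) T
  have hT' : Tendsto (fun n => ((Fintype.card (P n) : ℝ))⁻¹ * ∑ p : P n, trunc k M (Z n p)) atTop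
      (𝓝 (∫ x, trunc k M x ∂(gaussianReal 0 1))) := by
    refine hT.congr fun n => ?_
    change ∫ x, trunc k M x ∂(μ n) = _
    exact hintR n (trunc k M)
  have hG : |∫ x, x ^ k ∂(gaussianReal 0 1) - ∫ x, trunc k M x ∂(gaussianReal 0 1)| < ε / 3 := by
    have h1 : Integrable (trunc k M) (gaussianReal 0 1) :=
      Integrable.of_bound (trunc_cont k M).aestronglyMeasurable M
        (Eventually.of_forall (trunc_bound k hM0))
    rw [← integral_sub (integrable_pow_gauss k) h1]
    have h2 : |∫ x, (x ^ k - trunc k M x) ∂(gaussianReal 0 1)| ≤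
        ∫ x, x ^ (2 * k) / M ∂(gaussianReal 0 1) := by
      rw [← Real.norm_eq_abs]
      refine (norm_integral_le_integral_norm _).trans ?_
      refine integral_mono_of_nonneg (Eventually.of_forall fun x => norm_nonneg _)
        ((integrable_pow_gauss (2 * k)).div_const M) (Eventually.of_forall fun x => ?_)
      exact trunc_err k hM0 x
    rw [integral_div] at h2
    refine lt_of_le_of_lt h2 ?_
    rw [div_lt_iff₀ hM0]
    have := abs_nonneg κ
    linarith
  obtain ⟨N1, hN1⟩ := Metric.tendsto_atTop'.1 hT' (ε / 3) (by positivity)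
  obtain ⟨N2, hN2⟩ := eventually_atTop.1 hκ
  refine ⟨max N1 N2, fun n hn => ?_⟩
  have h1 := hN1 n (lt_of_le_of_lt (le_max_left _ _) hn)
  have h2 := hN2 n (le_trans (le_max_right _ _) hn.le)
  have hc0 : (0 : ℝ) < ((Fintype.card (P n) : ℝ))⁻¹ := by
    have : (0 : ℝ) < (Fintype.card (P n) : ℝ) := by exact_mod_cast hcard n
    positivity
  have h3 : |((Fintype.card (P n) : ℝ))⁻¹ * ∑ p : P n, Z n p ^ k -
      ((Fintype.card (P n) : ℝ))⁻¹ * ∑ p : P n, trunc k M (Z n p)| < ε / 3 := by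
    rw [← mul_sub, ← sum_sub_distrib, abs_mul, abs_of_pos hc0]
    have h4 : |∑ p : P n, (Z n p ^ k - trunc k M (Z n p))| ≤ (∑ p : P n, Z n p ^ (2 * k)) / M := by
      refine (abs_sum_le_sum_abs _ _).trans ?_
      rw [sum_div]
      exact sum_le_sum fun p _ => trunc_err k hM0 _
    have h5 : ((Fintype.card (P n) : ℝ))⁻¹ * |∑ p : P n, (Z n p ^ k - trunc k M (Z n p))| ≤
        ((Fintype.card (P n) : ℝ))⁻¹ * ((∑ p : P n, Z n p ^ (2 * k)) / M) :=
      mul_le_mul_of_nonneg_left h4 hc0.le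
    refine lt_of_le_of_lt h5 ?_
    rw [← mul_div_assoc, div_lt_iff₀ hM0]
    have := le_abs_self κ
    linarith
  rw [Real.dist_eq] at h1 ⊢
  calc _ = |(((Fintype.card (P n) : ℝ))⁻¹ * ∑ p : P n, Z n p ^ k -
          ((Fintype.card (P n) : ℝ))⁻¹ * ∑ p : P n, trunc k M (Z n p)) +
        (((Fintype.card (P n) : ℝ))⁻¹ * ∑ p : P n, trunc k M (Z n p) -
          ∫ x, trunc k M x ∂(gaussianReal 0 1)) +
        (∫ x, trunc k M x ∂(gaussianReal 0 1) - ∫ x, x ^ k ∂(gaussianReal 0 1))| := by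
        congr 1
        ring
    _ ≤ _ := abs_add_three _ _ _
    _ < ε / 3 + ε / 3 + ε / 3 := by
        rw [abs_sub_comm (∫ x, trunc k M x ∂(gaussianReal 0 1))]
        linarith
    _ = ε := by ring

end Pool.Agent.H47.ML
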