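import Pool.Agent.H47.ML.Mo4

/-!
# The number of components of a random meandric system: convergence of all moments
-/

set_option autoImplicit false

open Filter Topology Finset MeasureTheory ProbabilityTheory

namespace Pool.Agent.H47.ML

open Pool.Agent.N940.MN Pool.Agent.N940.MN.Aclt Pool.Agent.N940.MN.Final

/-- characteristic functions, with linear centring -/
theorem char_lin {μ : ℝ}
    (hmean : Tendsto (fun n : ℕ => (EB n (fun w => (fo w : ℝ)) - 2 * μ * n) /
      Real.sqrt (VB n fun w => (fo w : ℝ))) atTop (𝓝 0))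
    (h2 : ∀ t : ℝ, Tendsto (fun n : ℕ => EB n fun w => Complex.exp (Complex.I *
      ((t * (((fo w : ℝ) - EB n (fun w => (fo w : ℝ))) /
        Real.sqrt (VB n fun w => (fo w : ℝ))) : ℝ) : ℂ))) atTop
      (𝓝 (Complex.exp ((-(t ^ 2) / 2 : ℝ) : ℂ)))) (t : ℝ) :
    Tendsto (fun n => ((Fintype.card {p // p ∈ systems n} : ℂ))⁻¹ *
      ∑ p : {p // p ∈ systems n}, Complex.exp (Complex.I *
        ((t * (((components n p.1 : ℝ) - 2 * μ * n) / √(Final.variance n)) : ℝ) : ℂ))) atTop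
        (𝓝 (Complex.exp ((-(t ^ 2) / 2 : ℝ) : ℂ))) := by
  have hshift : Tendsto (fun n : ℕ => Complex.exp (Complex.I * ((t *
      ((EB n (fun w => (fo w : ℝ)) - 2 * μ * n) / √(VB n fun w => (fo w : ℝ))) : ℝ) : ℂ)))
      atTop (𝓝 1) := by
    have h3 : Tendsto (fun n : ℕ => t *
        ((EB n (fun w => (fo w : ℝ)) - 2 * μ * n) / √(VB n fun w => (fo w : ℝ))))
        atTop (𝓝 0) := by
      simpa using hmean.const_mul t
    have h4 : Continuous fun y : ℝ => Complex.exp (Complex.I * (y : ℂ)) := by fun_prop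
    have h5 := (h4.tendsto 0).comp h3
    rw [Complex.ofReal_zero, mul_zero, Complex.exp_zero] at h5
    exact h5
  have h6 := hshift.mul (h2 t)
  rw [one_mul] at h6
  refine h6.congr fun n => ?_
  rw [← EB_cmul_left]
  have e1 : EB n (fun w => Complex.exp (Complex.I * ((t *
      ((EB n (fun w => (fo w : ℝ)) - 2 * μ * n) / √(VB n fun w => (fo w : ℝ))) : ℝ) : ℂ)) *
      Complex.exp (Complex.I * ((t * (((fo w : ℝ) - EB n (fun w => (fo w : ℝ))) /
        Real.sqrt (VB n fun w => (fo w : ℝ))) : ℝ) : ℂ))) =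
      EB n fun w => Complex.exp (Complex.I * ((t * (((fo w : ℝ) - 2 * μ * n) /
        √(VB n fun w => (fo w : ℝ))) : ℝ) : ℂ)) := by
    refine EB_congr fun w _ _ => ?_
    rw [← Complex.exp_add]
    congr 1
    push_cast
    ring
  rw [e1, ← variance_eq hC hO,
    expect hC hO n (fun k => Complex.exp (Complex.I *
      ((t * (((k : ℝ) - 2 * μ * n) / √(Final.variance n)) : ℝ) : ℂ))), Fintype.card_coe]
  rw [← Finset.sum_coe_sort (systems n) (fun p => Complex.exp (Complex.I *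
      ((t * (((components n p : ℝ) - 2 * μ * n) / √(Final.variance n)) : ℝ) : ℂ)))]
  rw [Complex.real_smul]
  push_cast
  rfl

/-- boundedness of all moments, with linear centring -/
theorem moment_bound {F Fo : W → ℝ} {C c : ℝ} {r₀ : ℕ} (hA : Adt F Fo C c r₀) {μ : ℝ}
    (hμ : ∀ ε : ℝ, 0 < ε → ∃ R : ℕ, ∀ r : ℕ, R ≤ r → |Ew r F - μ * r| ≤ ε * Real.sqrt r)
    (k : ℕ) : ∃ κ : ℝ, ∀ᶠ n : ℕ in atTop,
      EB n (fun w => ((Fo w - 2 * μ * n) / Real.sqrt (VB n Fo)) ^ (2 * k)) ≤ κ := by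
  obtain ⟨κ, R, hκ, hR⟩ := all_moments_bridge hA k
  obtain ⟨R1, hR1⟩ := hμ 1 one_pos
  obtain ⟨-, h1⟩ := bridge Main.aclt0 Main.m4 Main.dens hA
  have hc := hA.cpos
  have hbb : ∀ n : ℕ, 0 < n → 0 < bb n := by
    obtain ⟨⟨c1, hc1, hb1⟩, -⟩ := Main.dens
    intro n hn
    have hn' : (0 : ℝ) < n := Nat.cast_pos.2 hn
    exact lt_of_lt_of_le (by positivity) (hb1 n hn)
  refine ⟨4 ^ k * (κ * 2 ^ k + 4 ^ k / c ^ k), ?_⟩
  filter_upwards [h1.eventually_const_lt (show (1 / 2 : ℝ) < 1 by norm_num),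
    eventually_ge_atTop (R + R1 + r₀ + 1)] with n hn1 hn2
  have hV := Vw_pos hA (n := n) (by omega) (by omega)
  rw [lt_div_iff₀ (by positivity)] at hn1
  have hVB : Vw n F ≤ VB n Fo := by linarith
  have hVB0 : 0 < VB n Fo := lt_of_lt_of_le hV hVB
  have e1 : EB n (fun w => ((Fo w - 2 * μ * n) / Real.sqrt (VB n Fo)) ^ (2 * k)) =
      (VB n Fo ^ k)⁻¹ * EB n (fun w => (Fo w - 2 * μ * n) ^ (2 * k)) := by
    rw [← EB_mul_left]
    refine EB_congr fun w _ _ => ?_
    rw [div_pow, pow_mul (Real.sqrt _), Real.sq_sqrt hVB0.le, div_eq_inv_mul]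
  have e2 : EB n (fun w => (Fo w - 2 * μ * n) ^ (2 * k)) ≤
      4 ^ k * (κ * (2 * Vw n F) ^ k + 4 ^ k / c ^ k * Vw n F ^ k) := by
    have e3 : EB n (fun w => (Fo w - 2 * μ * n) ^ (2 * k)) ≤
        4 ^ k * (EB n (fun w => (Fo w - 2 * Ew n F) ^ (2 * k)) +
          EB n (fun _ => (2 * Ew n F - 2 * μ * n) ^ (2 * k))) := by
      rw [← EB_add, ← EB_mul_left]
      refine EB_mono fun w _ _ => ?_
      have := add_pow_even k (Fo w - 2 * Ew n F) (2 * Ew n F - 2 * μ * n)
      rwa [sub_add_sub_cancel] at this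
    rw [EB_const (hbb n (by omega)).ne'] at e3
    refine e3.trans (mul_le_mul_of_nonneg_left (add_le_add (hR n (by omega)) ?_) (by positivity))
    have h4 := hR1 n (by omega)
    have h5 : |2 * Ew n F - 2 * μ * n| ≤ 2 * Real.sqrt n := by
      rw [show 2 * Ew n F - 2 * μ * n = 2 * (Ew n F - μ * n) by ring, abs_mul,
        abs_of_pos (show (0 : ℝ) < 2 by norm_num)]
      linarith
    have h6 := pow_le_pow_left₀ (abs_nonneg _) h5 (2 * k)
    rw [even_abs, mul_pow, pow_mul (Real.sqrt _), Real.sq_sqrt (Nat.cast_nonneg n),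
      pow_mul (2 : ℝ)] at h6
    have h7 : (n : ℝ) ^ k ≤ Vw n F ^ k / c ^ k := by
      rw [le_div_iff₀ (by positivity), ← mul_pow]
      refine pow_le_pow_left₀ (by positivity) ?_ _
      have := hA.var n (by omega)
      linarith
    norm_num at h6
    calc _ ≤ _ := h6
      _ ≤ 4 ^ k * (Vw n F ^ k / c ^ k) := mul_le_mul_of_nonneg_left h7 (by positivity)
      _ = _ := by ring
  rw [e1, inv_mul_le_iff₀ (by positivity)]
  refine e2.trans ?_
  have h8 : Vw n F ^ k ≤ VB n Fo ^ k := pow_le_pow_left₀ hV.le hVB k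
  calc 4 ^ k * (κ * (2 * Vw n F) ^ k + 4 ^ k / c ^ k * Vw n F ^ k)
      = (4 ^ k * (κ * 2 ^ k + 4 ^ k / c ^ k)) * Vw n F ^ k := by
        rw [mul_pow]
        ring
    _ ≤ (4 ^ k * (κ * 2 ^ k + 4 ^ k / c ^ k)) * VB n Fo ^ k :=
        mul_le_mul_of_nonneg_left h8 (by positivity)
    _ = _ := by ring

/-- all statements, with the convergence of the moments -/
theorem main2 : ∃ κ : ℝ, 0 < κ ∧
    (∀ x : ℝ, Tendsto (fun n => distrLin κ n x) atTop
      (𝓝 ((gaussianReal 0 1).real (Set.Iic x)))) ∧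
    (∀ x : ℝ, Tendsto (fun n => distr n x) atTop (𝓝 ((gaussianReal 0 1).real (Set.Iic x)))) ∧
    (∀ k : ℕ, Tendsto (fun n : ℕ =>
      (∑ p ∈ systems n, (((components n p : ℝ) - κ * n) / √(Final.variance n)) ^ k) /
        ((systems n).card : ℝ)) atTop (𝓝 (∫ x, x ^ k ∂(gaussianReal 0 1)))) ∧
    (∃ c : ℝ, 0 < c ∧ ∀ᶠ n : ℕ in atTop, c * n ≤ Final.variance n) ∧
    (∀ ε : ℝ, 0 < ε → ∃ K : ℝ, ∀ n : ℕ, 0 < n → Final.variance n ≤ K * (n : ℝ) ^ (1 + ε)) ∧
    Tendsto (fun n : ℕ => Final.variance (2 * n) / Final.variance n) atTop (𝓝 2) ∧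
    Tendsto (fun n : ℕ => (mean n - κ * n) / √(Final.variance n)) atTop (𝓝 0) := by
  obtain ⟨a, C, c, hadt⟩ := Fi.adt Main.u Main.w Main.wo Main.mirr Main.patch Var.main Main.approx
  obtain ⟨μ, hμ⟩ := mean_linear Main.mom Main.kur hadt
  have hμ0 := coeff_pos hμ
  obtain ⟨c', hc', h1, h2⟩ := Main.aclt _ _ _ _ _ hadt
  have hmean := bridge_mean Main.aclt0 Main.m4 Main.dens hadt hμ
  have : ∀ n, Nonempty {p // p ∈ systems n} := fun n => ⟨⟨_, (systems_nonempty n).choose_spec⟩⟩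
  have hchar := char_lin hmean h2
  refine ⟨2 * μ, by positivity, fun x => ?_, Main.clt.2, fun k => ?_, ⟨c', hc', ?_⟩, fun ε hε => ?_, ?_, ?_⟩
  · have key := Law.cdf_of_char (fun n => {p // p ∈ systems n})
      (fun n p => ((components n p.1 : ℝ) - 2 * μ * n) / √(Final.variance n)) hchar x
    refine key.congr fun n => ?_
    unfold distrLin
    rw [Fintype.card_coe]
    congr 2
    rw [← Fintype.card_subtype, ← Fintype.card_coe]
    refine Fintype.card_congr ⟨fun p => ⟨p.1.1, mem_filter.2 ⟨p.1.2, p.2⟩⟩,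
      fun p => ⟨⟨p.1, (mem_filter.1 p.2).1⟩, (mem_filter.1 p.2).2⟩, fun _ => rfl, fun _ => rfl⟩
  · obtain ⟨κ, hκ⟩ := moment_bound hadt hμ k
    have key := moment_of_char (fun n => {p // p ∈ systems n})
      (fun n p => ((components n p.1 : ℝ) - 2 * μ * n) / √(Final.variance n)) hchar k κ (by
        filter_upwards [hκ] with n hn
        rw [← variance_eq hC hO,
          expect hC hO n (fun j => (((j : ℝ) - 2 * μ * n) / √(Final.variance n)) ^ (2 * k))] at hn
        rw [Fintype.card_coe]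
        rw [← Finset.sum_coe_sort (systems n) (fun p => (((components n p : ℝ) - 2 * μ * n) /
          √(Final.variance n)) ^ (2 * k))] at hn
        exact hn)
    refine key.congr fun n => ?_
    rw [Fintype.card_coe, Finset.sum_coe_sort (systems n)
      (fun p => (((components n p : ℝ) - 2 * μ * n) / √(Final.variance n)) ^ k), div_eq_inv_mul]
  · filter_upwards [h1] with n hn
    rw [variance_eq hC hO]
    exact hn
  · obtain ⟨K, hK⟩ := bridge_upper Main.aclt0 Main.m4 Main.dens Main.kur hadt ε hε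
    refine ⟨K, fun n hn => ?_⟩
    rw [variance_eq hC hO]
    exact hK n hn
  · refine (bridge_ratio Main.aclt0 Main.m4 Main.dens Main.kur hadt).congr fun n => ?_
    rw [variance_eq hC hO, variance_eq hC hO]
  · refine hmean.congr fun n => ?_
    rw [variance_eq hC hO, mean_eq hC hO]

end Pool.Agent.H47.ML
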